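import Pool.Agent.IDE.KA

set_option autoImplicit false

/-!
# Inhomogeneous Duffin-Schaeffer, exact hypotheses: the chain of `Pool.Agent.IDE` for a general class
of data  ([IDF], MP_3a832c_nt)
-/

namespace Pool.Agent.IDF

open Finset Pool.Agent.IDS Pool.Agent.IDE

/-- basic data -/
structure BD (S : Finset ℕ) (κ : ℕ → ℕ) (Ω μ : ℕ → ℝ) : Prop where
  pos : ∀ v ∈ S, 0 < v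
  mu0 : ∀ v, 0 ≤ μ v
  mu_le : ∀ v ∈ S, μ v ≤ (Nat.totient v : ℝ) * (1 / 2 : ℝ) ^ κ v
  Om0 : ∀ k, 0 ≤ Ω k
  Om_le : ∀ k, Ω k ≤ 1

/-- a class of data `(γ, S, κ, Ω, μ)` all of which are basic data -/
def IsCls (Cl : ℝ → Finset ℕ → (ℕ → ℕ) → (ℕ → ℝ) → (ℕ → ℝ) → Prop) : Prop :=
  ∀ γ S κ Ω μ, Cl γ S κ Ω μ → BD S κ Ω μ

/-- the bound for all gainful aligned edges, for the class `Cl` -/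
def KapP (Cl : ℝ → Finset ℕ → (ℕ → ℕ) → (ℕ → ℝ) → (ℕ → ℝ) → Prop) : Prop :=
  ∃ ϑ ξ C : ℝ, 0 < ϑ ∧ ϑ < 2 ∧ 0 < ξ ∧ 0 < C ∧
    ∀ (γ : ℝ) (S : Finset ℕ) (κ : ℕ → ℕ) (Ω μ : ℕ → ℝ), Cl γ S κ Ω μ →
    ∀ (R : ℝ), 1 ≤ R → ∀ (E : Finset (ℕ × ℕ)), E ⊆ S ×ˢ S →
    (∀ e ∈ E, κ e.1 ≤ κ e.2 ∧ e.1 ≠ e.2 ∧
      (Nat.lcm e.1 e.2 : ℝ) * (1 / 2 : ℝ) ^ κ e.1 ≤ 1 / R ∧
      nd (γ * ((rd e.2 e.1 : ℝ) - rd e.1 e.2)) ≤ 2 / R ∧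
      (Gf γ R (max (rd e.1 e.2) (rd e.2 e.1)) ∨
        R ^ ((1 : ℝ) / 16) ≤ (2 : ℝ) ^ (κ e.2 - κ e.1))) →
    em μ μ E ≤ C * (1 + ms μ S) ^ ϑ * R ^ (-(1 + ξ))

end Pool.Agent.IDF
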