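import Pool.Agent.IDF.Base

set_option autoImplicit false

namespace Pool.Agent.IDF

open Finset Pool.Agent.IDS Pool.Agent.IDE

/-- [IDE-KA] **The same with the weights `n/φ(n)`.**

PROOF.  `tr` with `θ = 51/100`, `t = 1/R`, `H = R^8`: the sum is
`≤ C (1 + 8 log R)² C' (1+W)^ϑ R^{-(1+ξ)} + C W^{1.02} R^{-0.98} R^{-2}`, and
`(1 + 8 log R)² ≤ C'' R^{ξ/2}`.  So `ξ' = min (ξ/2, 1)` works. -/
theorem kapF_all (Cl : ℝ → Finset ℕ → (ℕ → ℕ) → (ℕ → ℝ) → (ℕ → ℝ) → Prop) (hCl : IsCls Cl)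
    (hKap : KapP Cl) :
    ∃ ϑ ξ C : ℝ, 0 < ϑ ∧ ϑ < 2 ∧ 0 < ξ ∧ 0 < C ∧
      ∀ (γ : ℝ) (S : Finset ℕ) (κ : ℕ → ℕ) (Ω μ : ℕ → ℝ), Cl γ S κ Ω μ →
      ∀ (R : ℝ), 1 ≤ R → ∀ (E : Finset (ℕ × ℕ)), E ⊆ S ×ˢ S →
      (∀ e ∈ E, κ e.1 ≤ κ e.2 ∧ e.1 ≠ e.2 ∧
        (Nat.lcm e.1 e.2 : ℝ) * (1 / 2 : ℝ) ^ κ e.1 ≤ 1 / R ∧
        nd (γ * ((rd e.2 e.1 : ℝ) - rd e.1 e.2)) ≤ 2 / R ∧
        (Gf γ R (max (rd e.1 e.2) (rd e.2 e.1)) ∨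
          R ^ ((1 : ℝ) / 16) ≤ (2 : ℝ) ^ (κ e.2 - κ e.1))) →
      ∑ e ∈ E, μ e.1 * μ e.2 * (Fw (rd e.1 e.2) * Fw (rd e.2 e.1)) ≤
        C * (1 + ms μ S) ^ ϑ * R ^ (-(1 + ξ)) := by
  obtain ⟨ϑ, ξ, C, hϑ, hϑ2, hξ, hC, hk⟩ := hKap
  obtain ⟨Ct, hCt, ht⟩ := tr (51 / 100) (by norm_num) (by norm_num)
  refine ⟨max ϑ (51 / 50), min (ξ / 2) 1, Ct * (1 + 32 / ξ) ^ 2 * C + Ct, by positivity,
    max_lt hϑ2 (by norm_num), by positivity, by positivity, ?_⟩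
  intro γ S κ Ω μ hDD R hR E hE hcond
  have hD := hCl _ _ _ _ _ hDD
  set ϑ' : ℝ := max ϑ (51 / 50) with hϑ'
  set ξ' : ℝ := min (ξ / 2) 1 with hξ'
  have hx1 : ξ' ≤ ξ / 2 := min_le_left _ _
  have hx2 : ξ' ≤ 1 := min_le_right _ _
  have hR0 : 0 < R := by linarith
  have hW : 0 ≤ ms μ S := ms_nonneg hD.mu0 S
  have hS : ∀ v ∈ S, 0 < v ∧ μ v ≤ (Nat.totient v : ℝ) * (1 / 2 : ℝ) ^ κ v :=
    fun v hv => ⟨hD.pos v hv, hD.mu_le v hv⟩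
  have hk' := hk γ S κ Ω μ hDD R hR E hE hcond
  have ht' := ht S κ μ (1 / R) (R ^ 8) E hD.mu0 hS (by positivity) (one_le_pow₀ hR) hE
    (fun e he => ⟨(hcond e he).1, (hcond e he).2.2.1⟩)
  set W := ms μ S with hWdef
  have hlog : 1 + Real.log (R ^ 8) ≤ (1 + 32 / ξ) * R ^ (ξ / 4) := by
    have h3 : Real.log (R ^ 8) = 8 * Real.log R := by
      rw [Real.log_pow]; norm_num
    have h4 : Real.log R ≤ R ^ (ξ / 4) / (ξ / 4) := Real.log_le_rpow_div hR0.le (by positivity)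
    have h5 : 1 ≤ R ^ (ξ / 4) := Real.one_le_rpow hR (by positivity)
    have h6 : R ^ (ξ / 4) / (ξ / 4) = 4 / ξ * R ^ (ξ / 4) := by field_simp
    rw [h6] at h4
    rw [h3]
    have h7 : (1 + 32 / ξ) * R ^ (ξ / 4) = R ^ (ξ / 4) + 8 * (4 / ξ * R ^ (ξ / 4)) := by ring
    rw [h7]
    linarith
  have hlog0 : 0 ≤ 1 + Real.log (R ^ 8) := by
    have : 0 ≤ Real.log (R ^ 8) := Real.log_nonneg (one_le_pow₀ hR)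
    linarith
  have hlog2 : (1 + Real.log (R ^ 8)) ^ 2 ≤ (1 + 32 / ξ) ^ 2 * R ^ (ξ / 2) := by
    calc (1 + Real.log (R ^ 8)) ^ 2 ≤ ((1 + 32 / ξ) * R ^ (ξ / 4)) ^ 2 :=
          pow_le_pow_left₀ hlog0 hlog 2
      _ = (1 + 32 / ξ) ^ 2 * (R ^ (ξ / 4) * R ^ (ξ / 4)) := by ring
      _ = (1 + 32 / ξ) ^ 2 * R ^ (ξ / 2) := by
          rw [← Real.rpow_add hR0]; ring_nf
  have hem0 : 0 ≤ IDS.em μ μ E := em_nonneg hD.mu0 hD.mu0 E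
  have hX0 : 0 ≤ (1 + W) ^ ϑ := Real.rpow_nonneg (by linarith) _
  have hfirst : Ct * (1 + Real.log (R ^ 8)) ^ 2 * IDS.em μ μ E ≤
      (Ct * (1 + 32 / ξ) ^ 2 * C) * (1 + W) ^ ϑ' * R ^ (-(1 + ξ')) := by
    calc Ct * (1 + Real.log (R ^ 8)) ^ 2 * IDS.em μ μ E ≤
          Ct * ((1 + 32 / ξ) ^ 2 * R ^ (ξ / 2)) * (C * (1 + W) ^ ϑ * R ^ (-(1 + ξ))) := by
          gcongr
      _ = Ct * (1 + 32 / ξ) ^ 2 * C * (1 + W) ^ ϑ * (R ^ (ξ / 2) * R ^ (-(1 + ξ))) := by ring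
      _ = Ct * (1 + 32 / ξ) ^ 2 * C * (1 + W) ^ ϑ * R ^ (-(1 + ξ / 2)) := by
          rw [← Real.rpow_add hR0]; ring_nf
      _ ≤ (Ct * (1 + 32 / ξ) ^ 2 * C) * (1 + W) ^ ϑ' * R ^ (-(1 + ξ')) := by
          have e1 : (1 + W) ^ ϑ ≤ (1 + W) ^ ϑ' :=
            Real.rpow_le_rpow_of_exponent_le (by linarith) (le_max_left _ _)
          have e2 : R ^ (-(1 + ξ / 2)) ≤ R ^ (-(1 + ξ')) :=
            Real.rpow_le_rpow_of_exponent_le hR (by linarith)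
          gcongr
  have hsecond : Ct * W ^ (2 * (51 / 100 : ℝ)) * (1 / R) ^ (2 * (1 - (51 / 100 : ℝ))) *
      (R ^ 8) ^ (-(1 : ℝ) / 4) ≤ Ct * (1 + W) ^ ϑ' * R ^ (-(1 + ξ')) := by
    have e1 : (1 / R) ^ (2 * (1 - (51 / 100 : ℝ))) * (R ^ 8) ^ (-(1 : ℝ) / 4) =
        R ^ (-(149 : ℝ) / 50) := by
      rw [one_div, Real.inv_rpow hR0.le, ← Real.rpow_neg hR0.le, ← Real.rpow_natCast,
        ← Real.rpow_mul hR0.le, ← Real.rpow_add hR0]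
      norm_num
    rw [mul_assoc, e1]
    exact ka_bd Ct W R (2 * (51 / 100)) (-(149 : ℝ) / 50) ξ' ϑ' hCt hW hR (by norm_num)
      (le_trans (by norm_num) (le_max_right _ _)) (by linarith)
  refine ht'.trans ((add_le_add hfirst hsecond).trans (le_of_eq ?_))
  ring

end Pool.Agent.IDF
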