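import Pool.Agent.IDE.CO
import Pool.Agent.IDF.KG

set_option autoImplicit false

namespace Pool.Agent.IDF

open Finset Pool.Agent.IDS Pool.Agent.IDE

theorem co_half (Cl : ℝ → Finset ℕ → (ℕ → ℕ) → (ℕ → ℝ) → (ℕ → ℝ) → Prop) (hCl : IsCls Cl)
    (hKap : KapP Cl) :
    ∃ ϑ C : ℝ, 0 < ϑ ∧ ϑ < 2 ∧ 0 < C ∧
      ∀ (γ : ℝ) (S : Finset ℕ) (κ : ℕ → ℕ) (Ω μ : ℕ → ℝ), Cl γ S κ Ω μ →
      ∀ (E : Finset (ℕ × ℕ)), E ⊆ S ×ˢ S →
      (∀ e ∈ E, κ e.1 ≤ κ e.2 ∧ e.1 ≠ e.2 ∧ DD κ e.1 e.2 < 1 / 4 ∧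
        nd (γ * ((rd e.2 e.1 : ℝ) - rd e.1 e.2)) ≤ 2 * DD κ e.1 e.2 ∧ GE γ κ e.1 e.2) →
      ∑ e ∈ E, μ e.1 * μ e.2 / DD κ e.1 e.2 * (Fw (rd e.1 e.2) * Fw (rd e.2 e.1)) ≤
        C * (1 + ms μ S) ^ ϑ := by
  classical
  obtain ⟨ϑ, ξ, C, hϑ, hϑ2, hξ, hC, hk⟩ := kapF_all Cl hCl hKap
  obtain ⟨Ct, hCt, ht⟩ := tr (51 / 100) (by norm_num) (by norm_num)
  obtain ⟨Cκ, hCκ, hκ⟩ := kappa (51 / 100) (by norm_num) (by norm_num)
  set q : ℝ := (2 : ℝ) ^ (-ξ) with hq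
  have hq0 : 0 < q := by positivity
  have hq1 : q < 1 := Real.rpow_lt_one_of_one_lt_of_neg (by norm_num) (by linarith)
  refine ⟨max ϑ (51 / 50), 2 ^ 64 * (Ct * Cκ + Ct) + 2 * C * (1 - q)⁻¹, by positivity,
    max_lt hϑ2 (by norm_num), ?_, ?_⟩
  · have : 0 < (1 - q)⁻¹ := inv_pos.2 (by linarith)
    positivity
  intro γ S κ Ω μ hDD E hE hcond
  have hD := hCl _ _ _ _ _ hDD
  have hS : ∀ v ∈ S, 0 < v ∧ μ v ≤ (Nat.totient v : ℝ) * (1 / 2 : ℝ) ^ κ v :=
    fun v hv => ⟨hD.pos v hv, hD.mu_le v hv⟩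
  have hμ := hD.mu0
  have hW : 0 ≤ ms μ S := ms_nonneg hμ S
  have hDk : ∀ e ∈ E, DD κ e.1 e.2 = (Nat.lcm e.1 e.2 : ℝ) * (1 / 2 : ℝ) ^ κ e.1 := by
    intro e he
    unfold DD
    rw [max_eq_left]
    exact pow_le_pow_of_le_one (by norm_num) (by norm_num) (hcond e he).1
  have hDpos : ∀ e ∈ E, 0 < DD κ e.1 e.2 := by
    intro e he
    rw [hDk e he]
    have h1 := Finset.mem_product.1 (hE he)
    have h2 : 0 < Nat.lcm e.1 e.2 := Nat.lcm_pos (hS _ h1.1).1 (hS _ h1.2).1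
    positivity
  have hex : ∀ e : ℕ × ℕ, ∃ n : ℕ, e ∈ E → ((1 / 2 : ℝ) ^ (n + 1) < DD κ e.1 e.2 ∧
      DD κ e.1 e.2 ≤ (1 / 2 : ℝ) ^ n) := by
    intro e
    by_cases he : e ∈ E
    · obtain ⟨n, hn⟩ := exists_nat_pow_near_of_lt_one (hDpos e he)
        (by linarith [(hcond e he).2.2.1]) (show (0 : ℝ) < 1 / 2 by norm_num) (by norm_num)
      exact ⟨n, fun _ => hn⟩
    · exact ⟨0, fun h => absurd h he⟩
  choose s hs using hex
  have hF0 : ∀ n : ℕ, 0 ≤ Fw n := fun n => by unfold Fw; positivity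
  set f : ℕ × ℕ → ℝ := fun e => μ e.1 * μ e.2 * (Fw (rd e.1 e.2) * Fw (rd e.2 e.1)) with hf
  have hf0 : ∀ e, 0 ≤ f e := fun e => by
    simp only [hf]
    exact mul_nonneg (mul_nonneg (hμ _) (hμ _)) (mul_nonneg (hF0 _) (hF0 _))
  have hinv : ∀ e ∈ E, μ e.1 * μ e.2 / DD κ e.1 e.2 * (Fw (rd e.1 e.2) * Fw (rd e.2 e.1)) ≤
      2 ^ (s e + 1) * f e := by
    intro e he
    have h1 := hDpos e he
    have h2 := (hs e he).1
    have h3 : 1 / DD κ e.1 e.2 ≤ 2 ^ (s e + 1) := by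
      rw [div_le_iff₀ h1]
      have h4 : (1 / 2 : ℝ) ^ (s e + 1) * 2 ^ (s e + 1) = 1 := by
        rw [← mul_pow]; norm_num
      have h5 : (0 : ℝ) < 2 ^ (s e + 1) := by positivity
      nlinarith
    have h6 : μ e.1 * μ e.2 / DD κ e.1 e.2 * (Fw (rd e.1 e.2) * Fw (rd e.2 e.1)) =
        1 / DD κ e.1 e.2 * f e := by simp only [hf]; ring
    rw [h6]
    exact mul_le_mul_of_nonneg_right h3 (hf0 e)
  set W := ms μ S with hWdef
  set Y : ℝ := (1 + W) ^ (max ϑ (51 / 50)) with hY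
  have hYa : (1 + W) ^ ϑ ≤ Y := Real.rpow_le_rpow_of_exponent_le (by linarith) (le_max_left _ _)
  have hYb : W ^ (2 * (51 / 100 : ℝ)) ≤ Y := by
    refine (Real.rpow_le_rpow hW (by linarith) (by norm_num)).trans
      (Real.rpow_le_rpow_of_exponent_le (by linarith) (le_trans (by norm_num) (le_max_right _ _)))
  have hY0 : 0 ≤ Y := Real.rpow_nonneg (by linarith) _
  -- low part
  set E1 := E.filter (fun e => s e < 64) with hE1
  set E2 := E.filter (fun e => ¬ s e < 64) with hE2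
  have hsplit := Finset.sum_filter_add_sum_filter_not E (fun e => s e < 64)
    (fun e => μ e.1 * μ e.2 / DD κ e.1 e.2 * (Fw (rd e.1 e.2) * Fw (rd e.2 e.1)))
  rw [← hsplit, ← hE1, ← hE2]
  have hlow : ∑ e ∈ E1, μ e.1 * μ e.2 / DD κ e.1 e.2 * (Fw (rd e.1 e.2) * Fw (rd e.2 e.1)) ≤
      2 ^ 64 * (Ct * Cκ + Ct) * Y := by
    have h1 : ∑ e ∈ E1, μ e.1 * μ e.2 / DD κ e.1 e.2 * (Fw (rd e.1 e.2) * Fw (rd e.2 e.1)) ≤
        ∑ e ∈ E1, 2 ^ 64 * f e := by
      refine Finset.sum_le_sum fun e he => ?_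
      obtain ⟨heE, hse⟩ := Finset.mem_filter.1 he
      refine (hinv e heE).trans ?_
      refine mul_le_mul_of_nonneg_right ?_ (hf0 e)
      exact pow_le_pow_right₀ (by norm_num) (by omega)
    have hlev : ∀ e ∈ E1, κ e.1 ≤ κ e.2 ∧ (Nat.lcm e.1 e.2 : ℝ) * (1 / 2 : ℝ) ^ κ e.1 ≤ 1 := by
      intro e he
      obtain ⟨heE, hse⟩ := Finset.mem_filter.1 he
      refine ⟨(hcond e heE).1, ?_⟩
      rw [← hDk e heE]
      linarith [(hcond e heE).2.2.1]
    have hE1S : E1 ⊆ S ×ˢ S := fun e he => hE (Finset.mem_filter.1 he).1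
    have h2 := ht S κ μ 1 1 E1 hμ hS one_pos le_rfl hE1S hlev
    rw [Real.log_one, add_zero, one_pow, mul_one, Real.one_rpow, Real.one_rpow, mul_one,
      mul_one] at h2
    have h3 := hκ S κ μ 1 hμ hS one_pos
    rw [Real.one_rpow, mul_one] at h3
    have h4 : IDS.em μ μ E1 ≤ Cκ * W ^ (2 * (51 / 100 : ℝ)) := by
      refine (em_mono hμ hμ ?_).trans h3
      intro e he
      exact Finset.mem_filter.2 ⟨hE1S he, hlev e he⟩
    rw [← Finset.mul_sum] at h1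
    refine h1.trans ?_
    rw [mul_assoc]
    refine mul_le_mul_of_nonneg_left (h2.trans ?_) (by positivity)
    calc Ct * IDS.em μ μ E1 + Ct * W ^ (2 * (51 / 100 : ℝ)) ≤ Ct * (Cκ * Y) + Ct * Y := by
          refine add_le_add (mul_le_mul_of_nonneg_left (h4.trans ?_) hCt.le)
            (mul_le_mul_of_nonneg_left hYb hCt.le)
          exact mul_le_mul_of_nonneg_left hYb hCκ.le
      _ = (Ct * Cκ + Ct) * Y := by ring
  -- high part
  have hhigh : ∑ e ∈ E2, μ e.1 * μ e.2 / DD κ e.1 e.2 * (Fw (rd e.1 e.2) * Fw (rd e.2 e.1)) ≤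
      2 * C * (1 - q)⁻¹ * Y := by
    have h1 : ∑ e ∈ E2, μ e.1 * μ e.2 / DD κ e.1 e.2 * (Fw (rd e.1 e.2) * Fw (rd e.2 e.1)) ≤
        ∑ e ∈ E2, 2 ^ (s e + 1) * f e := by
      refine Finset.sum_le_sum fun e he => ?_
      exact hinv e (Finset.mem_filter.1 he).1
    set K : ℕ := (∑ e ∈ E2, s e) + 1 with hK
    have hmap : ∀ e ∈ E2, s e ∈ range K := by
      intro e he
      have := Finset.single_le_sum (f := fun e => s e) (fun _ _ => Nat.zero_le _) he
      rw [Finset.mem_range]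
      omega
    have h2 := Finset.sum_fiberwise_of_maps_to hmap (fun e => 2 ^ (s e + 1) * f e)
    have h3 : ∀ j ∈ range K, ∑ e ∈ E2 with s e = j, 2 ^ (s e + 1) * f e ≤ 2 * C * Y * q ^ j := by
      intro j _
      have hsum : ∑ e ∈ E2 with s e = j, 2 ^ (s e + 1) * f e =
          2 ^ (j + 1) * ∑ e ∈ E2 with s e = j, f e := by
        rw [Finset.mul_sum]
        refine Finset.sum_congr rfl fun e he => ?_
        rw [(Finset.mem_filter.1 he).2]
      rw [hsum]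
      rcases lt_or_ge j 64 with hj | hj
      · have hemp : E2.filter (fun e => s e = j) = ∅ := by
          rw [Finset.filter_eq_empty_iff]
          intro e he hse
          have := (Finset.mem_filter.1 he).2
          omega
        rw [hemp, Finset.sum_empty, mul_zero]
        positivity
      · set R : ℝ := (2 : ℝ) ^ j with hR
        have hR1 : 1 ≤ R := one_le_pow₀ (by norm_num)
        have hR0 : 0 < R := by linarith
        have hRinv : (1 / 2 : ℝ) ^ j = 1 / R := by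
          rw [hR, div_pow, one_pow]
        have h5 := hk γ S κ Ω μ hDD R hR1 (E2.filter (fun e => s e = j))
          (fun e he => hE (Finset.mem_filter.1 (Finset.mem_filter.1 he).1).1) (by
            intro e he
            obtain ⟨heE2, hse⟩ := Finset.mem_filter.1 he
            have heE := (Finset.mem_filter.1 heE2).1
            obtain ⟨c1, c2, c3, c4, c5⟩ := hcond e heE
            obtain ⟨d1, d2⟩ := hs e heE
            rw [hse] at d1 d2
            refine ⟨c1, c2, ?_, ?_, ?_⟩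
            · rw [← hDk e heE, ← hRinv]
              exact d2
            · refine c4.trans ?_
              have : (2 : ℝ) / R = 2 * (1 / 2 : ℝ) ^ j := by rw [hRinv]; ring
              rw [this]
              linarith
            · have h6 := c5 j hj d2 (by rw [pow_succ] at d1; linarith)
              rcases h6 with h6 | h6
              · exact Or.inl h6
              · right
                have h7 : κ e.2 - κ e.1 + (κ e.1 - κ e.2) = κ e.2 - κ e.1 := by omega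
                rw [h7] at h6
                exact h6)
        have h6 : R * R ^ (-(1 + ξ)) = q ^ j := by
          have e1 : R * R ^ (-(1 + ξ)) = R ^ (-ξ) := by
            nth_rewrite 1 [← Real.rpow_one R]
            rw [← Real.rpow_add hR0]
            ring_nf
          rw [e1, hR, hq, ← Real.rpow_natCast, ← Real.rpow_natCast, ← Real.rpow_mul (by norm_num),
            ← Real.rpow_mul (by norm_num)]
          ring_nf
        calc 2 ^ (j + 1) * ∑ e ∈ E2 with s e = j, f e ≤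
              2 ^ (j + 1) * (C * (1 + W) ^ ϑ * R ^ (-(1 + ξ))) :=
              mul_le_mul_of_nonneg_left h5 (by positivity)
          _ = 2 * C * (1 + W) ^ ϑ * (R * R ^ (-(1 + ξ))) := by rw [hR, pow_succ]; ring
          _ = 2 * C * (1 + W) ^ ϑ * q ^ j := by rw [h6]
          _ ≤ 2 * C * Y * q ^ j := by gcongr
    refine h1.trans ?_
    rw [← h2]
    refine (Finset.sum_le_sum h3).trans ?_
    rw [← Finset.mul_sum]
    have h7 : ∑ j ∈ range K, q ^ j ≤ (1 - q)⁻¹ := by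
      have h8 := (summable_geometric_of_lt_one hq0.le hq1).sum_le_tsum (range K)
        (fun i _ => by positivity)
      rwa [tsum_geometric_of_lt_one hq0.le hq1] at h8
    have h9 : 0 ≤ 2 * C * Y := by positivity
    calc 2 * C * Y * ∑ j ∈ range K, q ^ j ≤ 2 * C * Y * (1 - q)⁻¹ :=
          mul_le_mul_of_nonneg_left h7 h9
      _ = _ := by ring
  refine (add_le_add hlow hhigh).trans (le_of_eq ?_)
  ring

/-- [IDE-CO] **Core inequality, `D < 1/4`.**

PROOF.  The summand is symmetric in `(v, w)` (`DD`, `GE`, `nd (-y) = nd y`), so the sum is at most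
twice the sum over `κ v ≤ κ w`, where `D = DD κ v w = lcm v w (1/2)^{κ v}`.  For an edge let `s ≥ 2` be
the natural number with `2^{-s-1} < D ≤ 2^{-s}`, `R = 2^s`: `1/D < 2R`, `D ≤ 1/R`,
`nd (γ(m'-m)) ≤ 2D ≤ 2/R`.
`s ≥ 64`: the edges with this `s` satisfy the hypotheses of `kapF_all`, contribution
`≤ 2R · C (1+W)^ϑ R^{-(1+ξ)}`; geometric sum over `s`.
`2 ≤ s < 64`: `tr` with `H = 1`, `θ = 51/100`, `t = 1`, and `kappa` (IDS.C3) for `em`: contribution
`≤ 2^{65} C W^{51/50}`.  (Only finitely many `s` occur, `Finset.sum_fiberwise`.) -/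
theorem core_small (Cl : ℝ → Finset ℕ → (ℕ → ℕ) → (ℕ → ℝ) → (ℕ → ℝ) → Prop) (hCl : IsCls Cl)
    (hKap : KapP Cl) :
    ∃ ϑ C : ℝ, 0 < ϑ ∧ ϑ < 2 ∧ 0 < C ∧
      ∀ (γ : ℝ) (S : Finset ℕ) (κ : ℕ → ℕ) (Ω μ : ℕ → ℝ), Cl γ S κ Ω μ →
      ∀ (E : Finset (ℕ × ℕ)), E ⊆ S ×ˢ S →
      (∀ e ∈ E, e.1 ≠ e.2 ∧ DD κ e.1 e.2 < 1 / 4 ∧
        nd (γ * ((rd e.2 e.1 : ℝ) - rd e.1 e.2)) ≤ 2 * DD κ e.1 e.2 ∧ GE γ κ e.1 e.2) →
      ∑ e ∈ E, μ e.1 * μ e.2 / DD κ e.1 e.2 * (Fw (rd e.1 e.2) * Fw (rd e.2 e.1)) ≤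
        C * (1 + ms μ S) ^ ϑ := by
  classical
  obtain ⟨ϑ, C, hϑ, hϑ2, hC, hk⟩ := co_half Cl hCl hKap
  refine ⟨ϑ, C + C, hϑ, hϑ2, by positivity, ?_⟩
  intro γ S κ Ω μ hDD E hE hcond
  have hD := hCl _ _ _ _ _ hDD
  have hsplit := Finset.sum_filter_add_sum_filter_not E (fun e => κ e.1 ≤ κ e.2)
    (fun e => μ e.1 * μ e.2 / DD κ e.1 e.2 * (Fw (rd e.1 e.2) * Fw (rd e.2 e.1)))
  rw [← hsplit]
  have h1 := hk γ S κ Ω μ hDD (E.filter (fun e => κ e.1 ≤ κ e.2))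
    (fun e he => hE (Finset.mem_filter.1 he).1)
    (fun e he => ⟨(Finset.mem_filter.1 he).2, hcond e (Finset.mem_filter.1 he).1⟩)
  have h2 := hk γ S κ Ω μ hDD ((E.filter (fun e => ¬ κ e.1 ≤ κ e.2)).image Prod.swap)
    (by
      intro e he
      obtain ⟨e', he', rfl⟩ := Finset.mem_image.1 he
      have := Finset.mem_product.1 (hE (Finset.mem_filter.1 he').1)
      exact Finset.mem_product.2 ⟨this.2, this.1⟩)
    (by
      intro e he
      obtain ⟨e', he', rfl⟩ := Finset.mem_image.1 he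
      obtain ⟨he'E, hκ⟩ := Finset.mem_filter.1 he'
      obtain ⟨c2, c3, c4, c5⟩ := hcond e' he'E
      simp only [Prod.fst_swap, Prod.snd_swap]
      refine ⟨by omega, c2.symm, ?_, ?_, ?_⟩
      · rw [co_DD_comm]; exact c3
      · rw [co_DD_comm κ e'.2 e'.1]
        refine le_trans (le_of_eq ?_) c4
        rw [← nd_neg]
        congr 1
        ring
      · intro s hs h3 h4
        rw [co_DD_comm κ e'.2 e'.1] at h3 h4
        have h5 := c5 s hs h3 h4
        rw [max_comm, add_comm (κ e'.1 - κ e'.2)]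
        exact h5)
  have h3 : ∑ e ∈ (E.filter (fun e => ¬ κ e.1 ≤ κ e.2)).image Prod.swap,
      μ e.1 * μ e.2 / DD κ e.1 e.2 * (Fw (rd e.1 e.2) * Fw (rd e.2 e.1)) =
      ∑ e ∈ E.filter (fun e => ¬ κ e.1 ≤ κ e.2),
      μ e.1 * μ e.2 / DD κ e.1 e.2 * (Fw (rd e.1 e.2) * Fw (rd e.2 e.1)) := by
    rw [Finset.sum_image (fun x _ y _ h => Prod.swap_injective h)]
    refine Finset.sum_congr rfl fun e _ => ?_
    simp only [Prod.fst_swap, Prod.snd_swap]
    rw [co_DD_comm κ e.2 e.1]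
    ring
  rw [h3] at h2
  rw [add_mul]
  exact add_le_add h1 h2

end Pool.Agent.IDF
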