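import Pool.Agent.IDE.FM
import Pool.Agent.IDF.MG

set_option autoImplicit false

namespace Pool.Agent.IDF

open Finset Pool.Agent.IDS Pool.Agent.IDE MeasureTheory Filter

private theorem fm_limit (C ϑ b : ℝ) (hϑ2 : ϑ < 2) (hϑ0 : 0 < ϑ) (hC : 0 < C)
    (h : ∀ A : ℝ, ∃ W : ℝ, A ≤ W ∧ W ^ 2 * b ≤ C * (1 + W) ^ ϑ) : b ≤ 0 := by
  by_contra hb
  push Not at hb
  have h2 : Tendsto (fun W : ℝ => W ^ (-(2 - ϑ))) atTop (nhds 0) :=
    tendsto_rpow_neg_atTop (by linarith)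
  have h3 : Tendsto (fun W : ℝ => C * 2 ^ ϑ * W ^ (-(2 - ϑ))) atTop (nhds 0) := by
    have := h2.const_mul (C * 2 ^ ϑ)
    simpa using this
  have h4 : ∀ᶠ W : ℝ in atTop, C * 2 ^ ϑ * W ^ (-(2 - ϑ)) < b := h3.eventually_lt_const hb
  rw [eventually_atTop] at h4
  obtain ⟨A, hA⟩ := h4
  obtain ⟨W, hW, hineq⟩ := h (max A 1)
  have hW1 : 1 ≤ W := (le_max_right _ _).trans hW
  have hW0 : 0 < W := by linarith
  have h5 := hA W ((le_max_left _ _).trans hW)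
  have h6 : (1 + W) ^ ϑ ≤ 2 ^ ϑ * W ^ ϑ := by
    rw [← Real.mul_rpow (by norm_num) hW0.le]
    exact Real.rpow_le_rpow (by linarith) (by linarith) hϑ0.le
  have h8 : W ^ 2 * W ^ (-(2 - ϑ)) = W ^ ϑ := by
    rw [← Real.rpow_natCast, ← Real.rpow_add hW0]
    congr 1
    push_cast
    ring
  have h9 : W ^ 2 * (C * 2 ^ ϑ * W ^ (-(2 - ϑ))) = C * (2 ^ ϑ * W ^ ϑ) := by
    calc _ = C * (2 ^ ϑ * (W ^ 2 * W ^ (-(2 - ϑ)))) := by ring
      _ = _ := by rw [h8]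
  have h10 : C * (1 + W) ^ ϑ ≤ C * (2 ^ ϑ * W ^ ϑ) := mul_le_mul_of_nonneg_left h6 hC.le
  have h11 : W ^ 2 * (C * 2 ^ ϑ * W ^ (-(2 - ϑ))) < W ^ 2 * b :=
    mul_lt_mul_of_pos_left h5 (by positivity)
  linarith

private theorem fm_tc_nonneg (γ : ℝ) (κ : ℕ → ℕ) (q : ℕ) : 0 ≤ tc γ κ q := by
  rcases Nat.eq_zero_or_pos q with rfl | hq
  · unfold tc
    simp
  · exact (tc_nonneg_le γ κ q hq).1

/-- [IDE-FM] **Full measure for level data, every real `γ`.** -/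
theorem full_measure (Cl : ℝ → Finset ℕ → (ℕ → ℕ) → (ℕ → ℝ) → (ℕ → ℝ) → Prop) (hCl : IsCls Cl)
    (hKap : KapP Cl) (γ : ℝ)
    (S : Set ℕ) (κ : ℕ → ℕ) (Ω : ℕ → ℝ)
    (hS : ∀ q ∈ S, 1 ≤ q ∧ (q : ℝ) * (1 / 2 : ℝ) ^ κ q < 1 / 2)
    (hΩ0 : ∀ k, 0 ≤ Ω k)
    (hDat : ∀ F : Finset ℕ, (∀ q ∈ F, q ∈ S) → Cl γ F κ Ω (fun q => Ω (κ q) * nu κ q))
    (hdiv : ¬ Summable (S.indicator
      (fun q => Ω (κ q) * ((Nat.totient q : ℝ) * (1 / 2 : ℝ) ^ κ q)))) :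
    ∀ᵐ x ∂(volume.restrict (Set.Icc (0 : ℝ) 1)),
      ∃ᶠ q : ℕ in atTop, q ∈ S ∧ nd (q * x - γ) ≤ q * (1 / 2 : ℝ) ^ κ q := by
  classical
  set μ : ℕ → ℝ := fun q => Ω (κ q) * nu κ q with hμdef
  have hμ0 : ∀ q, 0 ≤ μ q := fun q => mul_nonneg (hΩ0 _) (by unfold nu; positivity)
  have hAdm : ∀ q ∈ S, Adm κ q := fun q hq => hS q hq
  have hmeas : ∀ q, MeasurableSet (Ax γ κ q) := fun q => measurableSet_AS _ _ _ _ _ _
  have hvl0 : ∀ A : Set ℝ, 0 ≤ vl A := fun A => ENNReal.toReal_nonneg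
  have hfin : ∀ T : Set ℝ, volume (T ∩ Set.Icc (0 : ℝ) 1) ≠ ⊤ := by
    intro T
    apply ne_top_of_le_ne_top _ (measure_mono Set.inter_subset_right)
    rw [Real.volume_Icc]
    exact ENNReal.ofReal_ne_top
  have hvlmono : ∀ A B : Set ℝ, A ⊆ B → vl A ≤ vl B := by
    intro A B hAB
    unfold vl
    exact ENNReal.toReal_mono (hfin B) (measure_mono (Set.inter_subset_inter_left _ hAB))
  have hvl1 : ∀ A : Set ℝ, vl A ≤ 1 := by
    intro A
    unfold vl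
    have h1 : volume (A ∩ Set.Icc (0 : ℝ) 1) ≤ 1 := by
      refine (measure_mono Set.inter_subset_right).trans ?_
      rw [Real.volume_Icc]
      norm_num
    exact ENNReal.toReal_le_of_le_ofReal zero_le_one (by simpa using h1)
  -- the finite version
  have hbound : ∀ ε₀ : ℝ, 0 < ε₀ → ∃ ϑ C : ℝ, 0 < ϑ ∧ ϑ < 2 ∧ 0 < C ∧
      ∀ F : Finset ℕ, (∀ q ∈ F, q ∈ S) → (2 * ∑ q ∈ F, μ q) ^ 2 ≤
        (1 - vl {x | ∀ q ∈ F, x ∉ Ax γ κ q}) * (4 * (1 + ε₀) * (∑ q ∈ F, μ q) ^ 2 +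
          C * (1 + ∑ q ∈ F, μ q) ^ ϑ) := by
    intro ε₀ hε₀
    obtain ⟨ϑ, C, hϑ0, hϑ2, hC, hmom⟩ := moment_bound Cl hCl hKap ε₀ hε₀
    refine ⟨ϑ, C, hϑ0, hϑ2, hC, fun F hF => ?_⟩
    have h1 := second_moment2 F (fun q => Ω (κ q) * tc γ κ q)
      (fun q => mul_nonneg (hΩ0 _) (fm_tc_nonneg γ κ q)) (fun q => Ax γ κ q) hmeas
    have h2 := hmom γ F κ Ω (hDat F hF) (fun q hq => hAdm q (hF q hq))
    have h3 : ∑ q ∈ F, Ω (κ q) * tc γ κ q * vl (Ax γ κ q) = 2 * ∑ q ∈ F, μ q := by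
      rw [Finset.mul_sum]
      refine Finset.sum_congr rfl fun q hq => ?_
      rw [mul_assoc, tc_vl γ κ q (hAdm q (hF q hq))]
      simp only [hμdef]
      ring
    rw [h3] at h1
    refine h1.trans (mul_le_mul_of_nonneg_left h2 ?_)
    have := hvl1 {x | ∀ q ∈ F, x ∉ Ax γ κ q}
    linarith
  -- the sets `B_N` are null sets
  have hnull : ∀ N : ℕ, volume ({x : ℝ | ∀ q ∈ S, N ≤ q → x ∉ Ax γ κ q} ∩
      Set.Icc (0 : ℝ) 1) = 0 := by
    intro N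
    set B : Set ℝ := {x : ℝ | ∀ q ∈ S, N ≤ q → x ∉ Ax γ κ q} with hB
    have hb1 := hvl1 B
    have hb0 := hvl0 B
    -- finite sets of large mass
    have hlarge : ∀ A : ℝ, ∃ F : Finset ℕ, (∀ q ∈ F, q ∈ S) ∧ (∀ q ∈ F, N ≤ q) ∧
        A ≤ ∑ q ∈ F, μ q := by
      intro A
      have hunb : ∃ u : Finset ℕ, A + ∑ q ∈ Finset.range N, μ q <
          ∑ q ∈ u, S.indicator μ q := by
        by_contra hcon
        push Not at hcon
        apply hdiv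
        apply summable_of_sum_le (c := A + ∑ q ∈ Finset.range N, μ q)
        · intro q
          exact Set.indicator_nonneg (fun q _ => hμ0 q) q
        · exact hcon
      obtain ⟨u, hu⟩ := hunb
      refine ⟨(u.filter (fun q => q ∈ S)).filter (fun q => N ≤ q),
        fun q hq => (mem_filter.1 (mem_filter.1 hq).1).2, fun q hq => (mem_filter.1 hq).2, ?_⟩
      have h1 : ∑ q ∈ u, S.indicator μ q = ∑ q ∈ u.filter (fun q => q ∈ S), μ q := by
        rw [sum_filter]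
        apply sum_congr rfl
        intro q _
        by_cases hq : q ∈ S
        · rw [Set.indicator_of_mem hq, if_pos hq]
        · rw [Set.indicator_of_notMem hq, if_neg hq]
      have h2 : ∑ q ∈ u.filter (fun q => q ∈ S), μ q ≤
          ∑ q ∈ (u.filter (fun q => q ∈ S)).filter (fun q => N ≤ q), μ q +
            ∑ q ∈ Finset.range N, μ q := by
        rw [← sum_filter_add_sum_filter_not (u.filter (fun q => q ∈ S)) (fun q => N ≤ q)]
        apply add_le_add (le_refl _)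
        apply sum_le_sum_of_subset_of_nonneg
        · intro q hq
          rw [mem_filter] at hq
          rw [Finset.mem_range]
          exact not_le.1 hq.2
        · intro q _ _
          exact hμ0 q
      linarith
    have hstep : ∀ ε₀ : ℝ, 0 < ε₀ → 1 ≤ (1 - vl B) * (1 + ε₀) := by
      intro ε₀ hε₀
      obtain ⟨ϑ, C, hϑ0, hϑ2, hC, hF⟩ := hbound ε₀ hε₀
      have h1 : 1 - (1 - vl B) * (1 + ε₀) ≤ 0 := by
        apply fm_limit C ϑ _ hϑ2 hϑ0 hC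
        intro A
        obtain ⟨F, hFS, hFN, hFA⟩ := hlarge (max A 0)
        refine ⟨∑ q ∈ F, μ q, (le_max_left _ _).trans hFA, ?_⟩
        set W := ∑ q ∈ F, μ q with hW
        have hW0 : 0 ≤ W := (le_max_right _ _).trans hFA
        have h2 := hF F hFS
        rw [← hW] at h2
        have h3 : vl B ≤ vl {x | ∀ q ∈ F, x ∉ Ax γ κ q} :=
          hvlmono _ _ fun x hx q hq => hx q (hFS q hq) (hFN q hq)
        have h4 : 0 ≤ C * (1 + W) ^ ϑ := mul_nonneg hC.le (Real.rpow_nonneg (by linarith) _)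
        have h5 : 0 ≤ 4 * (1 + ε₀) * W ^ 2 + C * (1 + W) ^ ϑ := by positivity
        have h6 : (1 - vl {x | ∀ q ∈ F, x ∉ Ax γ κ q}) *
            (4 * (1 + ε₀) * W ^ 2 + C * (1 + W) ^ ϑ) ≤
            (1 - vl B) * (4 * (1 + ε₀) * W ^ 2 + C * (1 + W) ^ ϑ) :=
          mul_le_mul_of_nonneg_right (by linarith) h5
        have h7 : (1 - vl B) * (C * (1 + W) ^ ϑ) ≤ C * (1 + W) ^ ϑ :=
          mul_le_of_le_one_left h4 (by linarith)
        nlinarith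
      linarith
    have hb : vl B ≤ 0 := by
      by_contra hcon
      push Not at hcon
      have h1 := hstep (vl B / 2) (by linarith)
      nlinarith
    have h0 : (volume (B ∩ Set.Icc (0 : ℝ) 1)).toReal = 0 := le_antisymm hb hb0
    rcases (ENNReal.toReal_eq_zero_iff _).1 h0 with h1 | h1
    · exact h1
    · exact absurd h1 (hfin B)
  have hae : ∀ᵐ x ∂(volume.restrict (Set.Icc (0 : ℝ) 1)), ∀ N : ℕ,
      x ∉ {x : ℝ | ∀ q ∈ S, N ≤ q → x ∉ Ax γ κ q} ∩ Set.Icc (0 : ℝ) 1 := by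
    rw [ae_all_iff]
    intro N
    apply ae_restrict_of_ae
    rw [ae_iff]
    simp only [not_not]
    exact hnull N
  filter_upwards [hae, ae_restrict_mem measurableSet_Icc] with x hx hx1
  rw [frequently_atTop]
  intro N
  have h1 : x ∉ {x : ℝ | ∀ q ∈ S, N ≤ q → x ∉ Ax γ κ q} := fun h => hx N ⟨h, hx1⟩
  simp only [Set.mem_ofPred_eq, not_forall, not_not] at h1
  obtain ⟨q, hqS, hqN, hq⟩ := h1
  exact ⟨q, hqN, hqS, hq.1⟩

end Pool.Agent.IDF
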