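import Pool.Agent.IDF.Base

set_option autoImplicit false

namespace Pool.Agent.IDF

open Finset Pool.Agent.IDS Pool.Agent.IDE

/-- the mass of level `k` -/
def lm (μ : ℕ → ℝ) (κ : ℕ → ℕ) (S : Finset ℕ) (k : ℕ) : ℝ := ms μ (S.filter (fun v => κ v = k))

/-- `La` controls the number of dyadic sizes -/
def SZ (S : Finset ℕ) (κ : ℕ → ℕ) (La : ℕ → ℝ) : Prop :=
  ∀ F : Finset ℕ, F ⊆ S → ∀ k, (∀ q ∈ F, κ q = k) →
    (1 + Real.log ((F.image (Nat.log 2)).card : ℝ) ≤ La k ∨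
      1 + Real.log (1 + Real.log ((k : ℝ) + 1)) ≤ La k)

/-- the elementary inequality behind `two_level` -/
theorem k5_pow (z m : ℝ) (hz : 1 ≤ z) (hm : 0 ≤ m) (h : m * z ^ 5120 ≤ 1) :
    (2 * z⁻¹ * m) ^ (1 + (1 : ℝ) / 5120) ≤ 4 * (z⁻¹) ^ 2 * m := by
  have hz0 : 0 < z := by linarith
  have hzi : 0 < z⁻¹ := inv_pos.2 hz0
  have hzi1 : z⁻¹ ≤ 1 := inv_le_one_of_one_le₀ hz
  rcases hm.eq_or_lt with h0 | h0
  · rw [← h0, mul_zero, mul_zero, Real.zero_rpow (by norm_num)]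
  have hx : 0 < 2 * z⁻¹ * m := by positivity
  have hzn : 0 < z ^ 5120 := by positivity
  have h1 : 2 * z⁻¹ * m ≤ 2 * (z ^ 5120)⁻¹ := by
    have h2 : m ≤ (z ^ 5120)⁻¹ := by
      rw [le_inv_comm₀ h0 hzn]
      rw [inv_eq_one_div, le_div_iff₀ h0]
      linarith
    calc 2 * z⁻¹ * m ≤ 2 * 1 * (z ^ 5120)⁻¹ := by gcongr
      _ = _ := by ring
  have h3 : (2 * z⁻¹ * m) ^ ((1 : ℝ) / 5120) ≤ 2 * z⁻¹ := by
    calc (2 * z⁻¹ * m) ^ ((1 : ℝ) / 5120) ≤ (2 * (z ^ 5120)⁻¹) ^ ((1 : ℝ) / 5120) :=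
          Real.rpow_le_rpow hx.le h1 (by norm_num)
      _ = 2 ^ ((1 : ℝ) / 5120) * ((z ^ 5120)⁻¹) ^ ((1 : ℝ) / 5120) :=
          Real.mul_rpow (by norm_num) (inv_nonneg.2 hzn.le)
      _ ≤ 2 * z⁻¹ := by
          have e1 : (2 : ℝ) ^ ((1 : ℝ) / 5120) ≤ 2 := by
            calc (2 : ℝ) ^ ((1 : ℝ) / 5120) ≤ 2 ^ (1 : ℝ) :=
                  Real.rpow_le_rpow_of_exponent_le (by norm_num) (by norm_num)
              _ = 2 := Real.rpow_one _
          have e2 : ((z ^ 5120)⁻¹) ^ ((1 : ℝ) / 5120) = z⁻¹ := by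
            rw [Real.inv_rpow hzn.le]
            congr 1
            have e3 := Real.pow_rpow_inv_natCast hz0.le (n := 5120) (by norm_num)
            rw [one_div]
            exact_mod_cast e3
          rw [e2]
          exact mul_le_mul_of_nonneg_right e1 hzi.le
  rw [Real.rpow_add hx, Real.rpow_one]
  calc 2 * z⁻¹ * m * (2 * z⁻¹ * m) ^ ((1 : ℝ) / 5120) ≤ 2 * z⁻¹ * m * (2 * z⁻¹) :=
        mul_le_mul_of_nonneg_left h3 hx.le
    _ = 4 * (z⁻¹) ^ 2 * m := by ring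

/-- **Two levels.** -/
theorem two_level :
    ∃ C : ℝ, 0 < C ∧ ∀ (γ : ℝ) (S : Finset ℕ) (κ : ℕ → ℕ) (La μ : ℕ → ℝ),
      (∀ v ∈ S, 0 < v) → (∀ v, 0 ≤ μ v) →
      (∀ v ∈ S, μ v ≤ (Nat.totient v : ℝ) * (1 / 2 : ℝ) ^ κ v) →
      (∀ k, 1 ≤ La k) → SZ S κ La → (∀ k, lm μ κ S k * ((La k) ^ 5120) ^ 2 ≤ 1) →
      ∀ (R : ℝ), 1 ≤ R → ∀ (k k' : ℕ) (E : Finset (ℕ × ℕ)), E ⊆ S ×ˢ S →
      (∀ e ∈ E, κ e.1 = k ∧ κ e.2 = k' ∧ κ e.1 ≤ κ e.2 ∧
        (Nat.lcm e.1 e.2 : ℝ) * (1 / 2 : ℝ) ^ κ e.1 ≤ 1 / R ∧ EdI γ R e) →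
      em μ μ E ≤ C * (lm μ κ S k + lm μ κ S k') * R ^ (-(1 + (1 : ℝ) / 5120)) := by
  classical
  obtain ⟨C, hC, hkap⟩ := kappaI 1 one_pos le_rfl
  refine ⟨4 * C, by positivity, ?_⟩
  intro γ S κ La μ hpos hμ0 hμ1 hL1 hSZ hmass R hR k k' E hES hE
  have hR0 : 0 < R := by linarith
  have hRp : 0 < R ^ (-(1 + (1 : ℝ) / 5120)) := Real.rpow_pos_of_pos hR0 _
  obtain ⟨W, hW⟩ : ∃ W, W = lm μ κ S k := ⟨_, rfl⟩
  obtain ⟨W', hW'⟩ : ∃ W', W' = lm μ κ S k' := ⟨_, rfl⟩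
  have hW0 : 0 ≤ W := by rw [hW]; exact ms_nonneg hμ0 _
  have hW'0 : 0 ≤ W' := by rw [hW']; exact ms_nonneg hμ0 _
  rw [← hW, ← hW']
  have hS1 : ∀ e ∈ E, e.1 ∈ S ∧ e.2 ∈ S := fun e he => Finset.mem_product.1 (hES he)
  have hle1 : ∀ e ∈ E, μ e.1 ≤ W := by
    intro e he
    rw [hW]
    exact Finset.single_le_sum (f := μ) (fun v _ => hμ0 v)
      (Finset.mem_filter.2 ⟨(hS1 e he).1, (hE e he).1⟩)
  have hle2 : ∀ e ∈ E, μ e.2 ≤ W' := by
    intro e he
    rw [hW']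
    exact Finset.single_le_sum (f := μ) (fun v _ => hμ0 v)
      (Finset.mem_filter.2 ⟨(hS1 e he).2, (hE e he).2.1⟩)
  rcases hW0.eq_or_lt with h0 | hWp
  · have : IDS.em μ μ E = 0 := by
      unfold IDS.em
      refine Finset.sum_eq_zero fun e he => ?_
      have h1 := hle1 e he
      rw [← h0] at h1
      rw [le_antisymm h1 (hμ0 _), zero_mul]
    rw [this]
    positivity
  rcases hW'0.eq_or_lt with h0 | hW'p
  · have : IDS.em μ μ E = 0 := by
      unfold IDS.em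
      refine Finset.sum_eq_zero fun e he => ?_
      have h1 := hle2 e he
      rw [← h0] at h1
      rw [le_antisymm h1 (hμ0 _), mul_zero]
    rw [this]
    positivity
  -- the parameters
  obtain ⟨z, hz⟩ : ∃ z, z = La k * La k' := ⟨_, rfl⟩
  have hz1 : 1 ≤ z := by
    rw [hz]
    have := hL1 k
    have := hL1 k'
    nlinarith
  have hz0 : 0 < z := by linarith
  obtain ⟨m, hm⟩ : ∃ m, m = min W W' := ⟨_, rfl⟩
  have hm0 : 0 < m := by rw [hm]; exact lt_min hWp hW'p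
  have hmW : m ≤ W := by rw [hm]; exact min_le_left _ _
  have hmW' : m ≤ W' := by rw [hm]; exact min_le_right _ _
  have hmz : m * z ^ 5120 ≤ 1 := by
    have h1 : m * (La k ^ 5120) ^ 2 ≤ 1 :=
      (mul_le_mul_of_nonneg_right hmW (by positivity)).trans (by rw [hW]; exact hmass k)
    have h2 : m * (La k' ^ 5120) ^ 2 ≤ 1 :=
      (mul_le_mul_of_nonneg_right hmW' (by positivity)).trans (by rw [hW']; exact hmass k')
    have h3 : (m * z ^ 5120) ^ 2 ≤ 1 := by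
      have h4 : (m * z ^ 5120) ^ 2 = (m * (La k ^ 5120) ^ 2) * (m * (La k' ^ 5120) ^ 2) := by
        rw [hz, mul_pow (La k) (La k') 5120]
        generalize La k ^ 5120 = x
        generalize La k' ^ 5120 = y
        ring
      rw [h4]
      exact mul_le_one₀ h1 (by positivity) h2
    have h5 : 0 ≤ m * z ^ 5120 := by positivity
    nlinarith
  obtain ⟨c, hc⟩ : ∃ c, c = z⁻¹ * (m / W) := ⟨_, rfl⟩
  obtain ⟨c', hc'⟩ : ∃ c', c' = z⁻¹ * (m / W') := ⟨_, rfl⟩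
  have hc0 : 0 < c := by rw [hc]; positivity
  have hc'0 : 0 < c' := by rw [hc']; positivity
  have hcz : c ≤ z⁻¹ := by
    rw [hc]
    have : m / W ≤ 1 := (div_le_one hWp).2 hmW
    have hzi : 0 < z⁻¹ := inv_pos.2 hz0
    nlinarith
  have hc'z : c' ≤ z⁻¹ := by
    rw [hc']
    have : m / W' ≤ 1 := (div_le_one hW'p).2 hmW'
    have hzi : 0 < z⁻¹ := inv_pos.2 hz0
    nlinarith
  have hzk : z⁻¹ ≤ (La k)⁻¹ := by
    apply inv_anti₀ (by linarith [hL1 k])
    rw [hz]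
    have := hL1 k
    have := hL1 k'
    nlinarith
  have hzk' : z⁻¹ ≤ (La k')⁻¹ := by
    apply inv_anti₀ (by linarith [hL1 k'])
    rw [hz]
    have := hL1 k
    have := hL1 k'
    nlinarith
  obtain ⟨ν, hν⟩ : ∃ ν : ℕ → ℝ, ∀ v, ν v = (if κ v = k then c else c') * μ v := ⟨_, fun _ => rfl⟩
  obtain ⟨S', hS'⟩ : ∃ S' : Finset ℕ, S' = S.filter (fun v => κ v = k ∨ κ v = k') := ⟨_, rfl⟩
  have hS'S : S' ⊆ S := by rw [hS']; exact Finset.filter_subset _ _
  have hν0 : ∀ v, 0 ≤ ν v := by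
    intro v
    rw [hν]
    apply mul_nonneg _ (hμ0 v)
    split_ifs
    · exact hc0.le
    · exact hc'0.le
  have hDat : Dat3 1 S' κ (fun j => (La j)⁻¹) La ν := by
    refine ⟨fun v hv => hpos v (hS'S hv), hν0, ?_, hL1, ?_, ?_, ?_⟩
    · intro v hv
      rw [hν]
      have h1 := hμ1 v (hS'S hv)
      rw [hS', Finset.mem_filter] at hv
      have hL : 0 < (La (κ v))⁻¹ := inv_pos.2 (by linarith [hL1 (κ v)])
      have h3 : (if κ v = k then c else c') ≤ (La (κ v))⁻¹ := by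
        split_ifs with h
        · rw [h]
          exact hcz.trans hzk
        · rcases hv.2 with h2 | h2
          · exact absurd h2 h
          · rw [h2]
            exact hc'z.trans hzk'
      exact mul_le_mul h3 h1 (hμ0 v) hL.le
    · intro j
      exact inv_nonneg.2 (by linarith [hL1 j])
    · intro j
      show (La j)⁻¹ * (La j) ^ (1 : ℝ) ≤ 1
      rw [Real.rpow_one, inv_mul_cancel₀ (by linarith [hL1 j])]
    · intro j
      exact hSZ _ ((Finset.filter_subset _ _).trans hS'S) j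
        (fun q hq => (Finset.mem_filter.1 hq).2)
  have hkey := hkap γ S' κ (fun j => (La j)⁻¹) La ν hDat R hR E (by
      intro e he
      obtain ⟨a1, a2, -⟩ := hE e he
      rw [hS', Finset.mem_product, Finset.mem_filter, Finset.mem_filter]
      exact ⟨⟨(hS1 e he).1, Or.inl a1⟩, (hS1 e he).2, Or.inr a2⟩)
    (fun e he => by
      obtain ⟨-, -, a3, a4, a5⟩ := hE e he
      exact ⟨a3, a4, a5⟩)
  -- the left side
  have hL : em ν ν E = c * c' * em μ μ E := by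
    unfold IDS.em
    rw [Finset.mul_sum]
    refine Finset.sum_congr rfl fun e he => ?_
    obtain ⟨a1, a2, -⟩ := hE e he
    rw [hν, hν, if_pos a1, a2]
    by_cases hkk : k' = k
    · rw [if_pos hkk]
      have : c = c' := by
        rw [hc, hc', hW, hW', hkk]
      rw [← this]
      ring
    · rw [if_neg hkk]
      ring
  -- the mass
  have hM : ms ν S' ≤ 2 * z⁻¹ * m := by
    have h1 : ms ν S' ≤ c * W + c' * W' := by
      unfold ms
      rw [hS', Finset.sum_filter, hW, hW']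
      unfold lm ms
      rw [Finset.mul_sum, Finset.mul_sum, Finset.sum_filter, Finset.sum_filter,
        ← Finset.sum_add_distrib]
      refine Finset.sum_le_sum fun v _ => ?_
      have hv := hμ0 v
      have b1 : 0 ≤ c * μ v := mul_nonneg hc0.le hv
      have b2 : 0 ≤ c' * μ v := mul_nonneg hc'0.le hv
      rw [hν]
      by_cases h1 : κ v = k
      · rw [if_pos (Or.inl h1), if_pos h1, if_pos h1]
        split_ifs
        · linarith
        · linarith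
      · by_cases h2 : κ v = k'
        · rw [if_pos (Or.inr h2), if_neg h1, if_neg h1, if_pos h2]
          linarith
        · rw [if_neg (by tauto), if_neg h1, if_neg h2]
          linarith
    have h2 : c * W = z⁻¹ * m := by
      rw [hc]; field_simp
    have h3 : c' * W' = z⁻¹ * m := by
      rw [hc']; field_simp
    rw [h2, h3] at h1
    linarith
  have hms0 : 0 ≤ ms ν S' := ms_nonneg hν0 _
  have hpw : (ms ν S') ^ (1 + (1 : ℝ) / 5120) ≤ 4 * (z⁻¹) ^ 2 * m :=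
    (Real.rpow_le_rpow hms0 hM (by norm_num)).trans (k5_pow z m hz1 hm0.le hmz)
  rw [hL] at hkey
  have hkey2 : c * c' * em μ μ E ≤ C * (4 * (z⁻¹) ^ 2 * m) * R ^ (-(1 + (1 : ℝ) / 5120)) :=
    hkey.trans (by gcongr)
  have hcc : c * c' = (z⁻¹) ^ 2 * m * (m / (W * W')) := by
    rw [hc, hc']; field_simp
  have hzm : 0 < (z⁻¹) ^ 2 * m := by positivity
  have hkey3 : (m / (W * W')) * em μ μ E ≤ 4 * C * R ^ (-(1 + (1 : ℝ) / 5120)) := by
    have h1 : (z⁻¹) ^ 2 * m * ((m / (W * W')) * em μ μ E) ≤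
        (z⁻¹) ^ 2 * m * (4 * C * R ^ (-(1 + (1 : ℝ) / 5120))) := by
      calc (z⁻¹) ^ 2 * m * ((m / (W * W')) * em μ μ E) = c * c' * em μ μ E := by
            rw [hcc]; ring
        _ ≤ _ := hkey2
        _ = _ := by ring
    exact le_of_mul_le_mul_left h1 hzm
  -- `W W' / m = max W W' ≤ W + W'`
  have hmax : W * W' ≤ (W + W') * m := by
    rw [hm]
    rcases le_total W W' with h | h
    · rw [min_eq_left h]
      nlinarith
    · rw [min_eq_right h]
      nlinarith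
  have hem0 : 0 ≤ em μ μ E := em_nonneg hμ0 hμ0 E
  have hWW : 0 < W * W' := mul_pos hWp hW'p
  have h1 : em μ μ E ≤ (W + W') * ((m / (W * W')) * em μ μ E) := by
    have h2 : 1 ≤ (W + W') * (m / (W * W')) := by
      rw [← mul_div_assoc, le_div_iff₀ hWW]
      linarith
    calc em μ μ E = 1 * em μ μ E := (one_mul _).symm
      _ ≤ ((W + W') * (m / (W * W'))) * em μ μ E := mul_le_mul_of_nonneg_right h2 hem0
      _ = _ := by ring
  refine h1.trans ?_
  calc (W + W') * ((m / (W * W')) * em μ μ E) ≤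
        (W + W') * (4 * C * R ^ (-(1 + (1 : ℝ) / 5120))) :=
        mul_le_mul_of_nonneg_left hkey3 (by linarith)
    _ = _ := by ring

end Pool.Agent.IDF
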