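import Pool.Agent.IDF.K5a

set_option autoImplicit false

namespace Pool.Agent.IDF

open Finset Pool.Agent.IDS Pool.Agent.IDE

/-- sum over the levels -/
theorem k5b_sum_levels (μ : ℕ → ℝ) (κ : ℕ → ℕ) (S : Finset ℕ) :
    ∑ k ∈ S.image κ, lm μ κ S k = ms μ S := by
  classical
  unfold lm ms
  exact Finset.sum_fiberwise_of_maps_to (fun v hv => Finset.mem_image_of_mem κ hv) μ

/-- sum over pairs of levels with bounded difference, first coordinate -/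
theorem k5b_pairs (w : ℕ → ℝ) (hw : ∀ k, 0 ≤ w k) (P : Finset (ℕ × ℕ)) (K : Finset ℕ) (J : ℕ)
    (f g : ℕ × ℕ → ℕ) (hf : ∀ p ∈ P, f p ∈ K)
    (hinj : ∀ p ∈ P, ∀ p' ∈ P, f p = f p' → g p = g p' → p = p') (hg : ∀ p ∈ P, g p < J + 1) :
    ∑ p ∈ P, w (f p) ≤ (J + 1) * ∑ k ∈ K, w k := by
  classical
  rw [← Finset.sum_fiberwise_of_maps_to hf (fun p => w (f p)), Finset.mul_sum]
  refine Finset.sum_le_sum fun k _ => ?_
  have h1 : ∑ p ∈ P with f p = k, w (f p) = ((P.filter (fun p => f p = k)).card : ℝ) * w k := by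
    rw [← nsmul_eq_mul, ← Finset.sum_const]
    refine Finset.sum_congr rfl fun p hp => ?_
    rw [(Finset.mem_filter.1 hp).2]
  rw [h1]
  apply mul_le_mul_of_nonneg_right _ (hw k)
  have h2 : (P.filter (fun p => f p = k)).card ≤ (Finset.range (J + 1)).card := by
    apply Finset.card_le_card_of_injOn g
    · intro p hp
      have hp' := Finset.mem_filter.1 (Finset.mem_coe.1 hp)
      exact Finset.mem_coe.2 (Finset.mem_range.2 (hg p hp'.1))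
    · intro p hp p' hp' heq
      have h3 := Finset.mem_filter.1 (Finset.mem_coe.1 hp)
      have h4 := Finset.mem_filter.1 (Finset.mem_coe.1 hp')
      exact hinj p h3.1 p' h4.1 (h3.2.trans h4.2.symm) heq
  rw [Finset.card_range] at h2
  exact_mod_cast h2

/-- **Regime I for light levels.** -/
theorem kappaI5 :
    ∃ C : ℝ, 0 < C ∧ ∀ (γ : ℝ) (S : Finset ℕ) (κ : ℕ → ℕ) (La μ : ℕ → ℝ),
      (∀ v ∈ S, 0 < v) → (∀ v, 0 ≤ μ v) →
      (∀ v ∈ S, μ v ≤ (Nat.totient v : ℝ) * (1 / 2 : ℝ) ^ κ v) →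
      (∀ k, 1 ≤ La k) → SZ S κ La → (∀ k, lm μ κ S k * ((La k) ^ 5120) ^ 2 ≤ 1) →
      ∀ (R : ℝ), 1 ≤ R → ∀ (E : Finset (ℕ × ℕ)), E ⊆ S ×ˢ S →
      (∀ e ∈ E, κ e.1 ≤ κ e.2 ∧
        (Nat.lcm e.1 e.2 : ℝ) * (1 / 2 : ℝ) ^ κ e.1 ≤ 1 / R ∧ EdI γ R e ∧
        ¬ R ^ ((1 : ℝ) / 16) ≤ (2 : ℝ) ^ (κ e.2 - κ e.1)) →
      em μ μ E ≤ C * ms μ S * R ^ (-(1 + (1 : ℝ) / 10240)) := by
  classical
  obtain ⟨C, hC, htwo⟩ := two_level
  refine ⟨2 * C * 10241, by positivity, ?_⟩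
  intro γ S κ La μ hpos hμ0 hμ1 hL1 hSZ hmass R hR E hES hE
  have hR0 : 0 < R := by linarith
  have hlogR : 0 ≤ Real.log R := Real.log_nonneg hR
  obtain ⟨J, hJ⟩ : ∃ J : ℕ, J = ⌊Real.log R⌋₊ := ⟨_, rfl⟩
  have hJlog : (J : ℝ) ≤ Real.log R := by rw [hJ]; exact Nat.floor_le hlogR
  have hd : ∀ e ∈ E, κ e.2 - κ e.1 < J + 1 := by
    intro e he
    have h1 := (hE e he).2.2.2
    push Not at h1
    have h2 : ((κ e.2 - κ e.1 : ℕ) : ℝ) * Real.log 2 ≤ (1 / 16) * Real.log R := by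
      have h3 := Real.log_le_log (by positivity) h1.le
      rw [Real.log_rpow hR0, Real.log_pow] at h3
      exact h3
    have h4 : ((κ e.2 - κ e.1 : ℕ) : ℝ) ≤ Real.log R := by
      have h5 := Real.log_two_gt_d9
      have h6 : (0 : ℝ) ≤ ((κ e.2 - κ e.1 : ℕ) : ℝ) := Nat.cast_nonneg _
      nlinarith
    have h7 : κ e.2 - κ e.1 ≤ J := by
      rw [hJ]
      exact Nat.le_floor h4
    omega
  have hw0 : ∀ k, 0 ≤ lm μ κ S k := fun k => ms_nonneg hμ0 _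
  have hS1 : ∀ e ∈ E, e.1 ∈ S ∧ e.2 ∈ S := fun e he => Finset.mem_product.1 (hES he)
  obtain ⟨P, hP⟩ : ∃ P : Finset (ℕ × ℕ), P = E.image (fun e => (κ e.1, κ e.2)) := ⟨_, rfl⟩
  have hPm : ∀ p ∈ P, p.1 ∈ S.image κ ∧ p.2 ∈ S.image κ ∧ p.1 ≤ p.2 ∧ p.2 - p.1 < J + 1 := by
    intro p hp
    rw [hP, Finset.mem_image] at hp
    obtain ⟨e, he, rfl⟩ := hp
    exact ⟨Finset.mem_image_of_mem κ (hS1 e he).1, Finset.mem_image_of_mem κ (hS1 e he).2,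
      (hE e he).1, hd e he⟩
  have hsplit : em μ μ E = ∑ p ∈ P, em μ μ (E.filter (fun e => (κ e.1, κ e.2) = p)) := by
    unfold IDS.em
    rw [Finset.sum_fiberwise_of_maps_to (fun e he => by
      rw [hP]; exact Finset.mem_image_of_mem _ he)]
  have hterm : ∀ p ∈ P, em μ μ (E.filter (fun e => (κ e.1, κ e.2) = p)) ≤
      C * (lm μ κ S p.1 + lm μ κ S p.2) * R ^ (-(1 + (1 : ℝ) / 5120)) := by
    intro p _
    apply htwo γ S κ La μ hpos hμ0 hμ1 hL1 hSZ hmass R hR p.1 p.2 _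
      ((Finset.filter_subset _ _).trans hES)
    intro e he
    obtain ⟨h1, h2⟩ := Finset.mem_filter.1 he
    obtain ⟨a1, a2, a3, -⟩ := hE e h1
    rw [← h2]
    exact ⟨rfl, rfl, a1, a2, a3⟩
  have hs1 := k5b_pairs (lm μ κ S) hw0 P (S.image κ) J (fun p => p.1) (fun p => p.2 - p.1)
    (fun p hp => (hPm p hp).1) (fun p hp p' hp' h1 h2 => by
      have b1 := (hPm p hp).2.2.1
      have b2 := (hPm p' hp').2.2.1
      ext
      · exact h1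
      · omega) (fun p hp => (hPm p hp).2.2.2)
  have hs2 := k5b_pairs (lm μ κ S) hw0 P (S.image κ) J (fun p => p.2) (fun p => p.2 - p.1)
    (fun p hp => (hPm p hp).2.1) (fun p hp p' hp' h1 h2 => by
      have b1 := (hPm p hp).2.2.1
      have b2 := (hPm p' hp').2.2.1
      ext
      · omega
      · exact h1) (fun p hp => (hPm p hp).2.2.2)
  rw [k5b_sum_levels] at hs1 hs2
  have hRp : 0 ≤ R ^ (-(1 + (1 : ℝ) / 5120)) := Real.rpow_nonneg hR0.le _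
  have hms0 : 0 ≤ ms μ S := ms_nonneg hμ0 S
  have hmain : em μ μ E ≤ 2 * C * ((1 + Real.log R) * ms μ S) * R ^ (-(1 + (1 : ℝ) / 5120)) := by
    rw [hsplit]
    calc ∑ p ∈ P, em μ μ (E.filter (fun e => (κ e.1, κ e.2) = p)) ≤
          ∑ p ∈ P, C * (lm μ κ S p.1 + lm μ κ S p.2) * R ^ (-(1 + (1 : ℝ) / 5120)) :=
          Finset.sum_le_sum hterm
      _ = C * R ^ (-(1 + (1 : ℝ) / 5120)) *
          (∑ p ∈ P, lm μ κ S p.1 + ∑ p ∈ P, lm μ κ S p.2) := by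
          rw [← Finset.sum_add_distrib, Finset.mul_sum]
          refine Finset.sum_congr rfl fun p _ => ?_
          ring
      _ ≤ C * R ^ (-(1 + (1 : ℝ) / 5120)) *
          (((J : ℝ) + 1) * ms μ S + ((J : ℝ) + 1) * ms μ S) := by
          apply mul_le_mul_of_nonneg_left (add_le_add hs1 hs2)
          positivity
      _ = 2 * C * (((J : ℝ) + 1) * ms μ S) * R ^ (-(1 + (1 : ℝ) / 5120)) := by ring
      _ ≤ 2 * C * ((1 + Real.log R) * ms μ S) * R ^ (-(1 + (1 : ℝ) / 5120)) := by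
          have : (J : ℝ) + 1 ≤ 1 + Real.log R := by linarith
          gcongr
  have hlog : 1 + Real.log R ≤ 10241 * R ^ ((1 : ℝ) / 10240) := by
    have h4 : Real.log R ≤ R ^ ((1 : ℝ) / 10240) / ((1 : ℝ) / 10240) :=
      Real.log_le_rpow_div hR0.le (by positivity)
    have h5 : 1 ≤ R ^ ((1 : ℝ) / 10240) := Real.one_le_rpow hR (by positivity)
    have h6 : R ^ ((1 : ℝ) / 10240) / ((1 : ℝ) / 10240) = 10240 * R ^ ((1 : ℝ) / 10240) := by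
      field_simp
    linarith
  refine hmain.trans ?_
  calc 2 * C * ((1 + Real.log R) * ms μ S) * R ^ (-(1 + (1 : ℝ) / 5120)) ≤
        2 * C * ((10241 * R ^ ((1 : ℝ) / 10240)) * ms μ S) * R ^ (-(1 + (1 : ℝ) / 5120)) := by
        gcongr
    _ = 2 * C * 10241 * ms μ S *
        (R ^ ((1 : ℝ) / 10240) * R ^ (-(1 + (1 : ℝ) / 5120))) := by ring
    _ = 2 * C * 10241 * ms μ S * R ^ (-(1 + (1 : ℝ) / 10240)) := by
        rw [← Real.rpow_add hR0]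
        norm_num

/-- the class of light data -/
def ClL (γ : ℝ) (S : Finset ℕ) (κ : ℕ → ℕ) (Ω μ : ℕ → ℝ) : Prop :=
  γ = γ ∧ BD S κ Ω μ ∧ ∃ La : ℕ → ℝ, (∀ k, 1 ≤ La k) ∧ SZ S κ La ∧
    ∀ k, lm μ κ S k * ((La k) ^ 5120) ^ 2 ≤ 1

/-- **Light levels**: all gainful aligned edges. -/
theorem kapP_light : KapP ClL := by
  classical
  obtain ⟨Cu, hCu, hu⟩ := ularge
  obtain ⟨ξ₂, C₂, hξ₂, hξ₂', hC₂, h₂⟩ := IDE.kappaII 80
  obtain ⟨Cn, hCn, hn⟩ := noncop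
  obtain ⟨Ck, hCk, hk⟩ := kappaI5
  refine ⟨3 / 2, min (min (1 / 128) (1 / 10240)) ξ₂, Cu + C₂ + Cn + Ck, by norm_num, by norm_num,
    by positivity, by positivity, ?_⟩
  rintro γ S κ Ω μ ⟨-, hD, La, hL1, hSZ, hmass⟩ R hR E hE hcond
  set ξ : ℝ := min (min (1 / 128) (1 / 10240)) ξ₂ with hξ
  have hx1 : ξ ≤ 1 / 128 := (min_le_left _ _).trans (min_le_left _ _)
  have hx2 : ξ ≤ 1 / 10240 := (min_le_left _ _).trans (min_le_right _ _)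
  have hx3 : ξ ≤ ξ₂ := min_le_right _ _
  have hW : 0 ≤ ms μ S := ms_nonneg hD.mu0 S
  have hS : ∀ v ∈ S, 0 < v ∧ μ v ≤ (Nat.totient v : ℝ) * (1 / 2 : ℝ) ^ κ v :=
    fun v hv => ⟨hD.pos v hv, hD.mu_le v hv⟩
  set W := ms μ S with hWdef
  set X : ℝ := (1 + W) ^ ((3 : ℝ) / 2) * R ^ (-(1 + ξ)) with hX
  -- the pieces
  set E1 := E.filter (fun e => R ^ ((1 : ℝ) / 16) ≤ (2 : ℝ) ^ (κ e.2 - κ e.1)) with hE1
  set E2 := E.filter (fun e => ¬ R ^ ((1 : ℝ) / 16) ≤ (2 : ℝ) ^ (κ e.2 - κ e.1)) with hE2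
  set E3 := E2.filter (fun e => (rd e.1 e.2 : ℝ) ≤ R ^ 80 ∧ (rd e.2 e.1 : ℝ) ≤ R ^ 80) with hE3
  set E4 := E2.filter (fun e => ¬ ((rd e.1 e.2 : ℝ) ≤ R ^ 80 ∧ (rd e.2 e.1 : ℝ) ≤ R ^ 80)) with hE4
  set E5 := E4.filter (fun e => ¬ Cop γ R (rd e.1 e.2) ∨ ¬ Cop γ R (rd e.2 e.1)) with hE5
  set E6 := E4.filter (fun e => ¬ (¬ Cop γ R (rd e.1 e.2) ∨ ¬ Cop γ R (rd e.2 e.1))) with hE6
  have s1 := ka_split μ μ E (fun e => R ^ ((1 : ℝ) / 16) ≤ (2 : ℝ) ^ (κ e.2 - κ e.1))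
  have s2 := ka_split μ μ E2 (fun e => (rd e.1 e.2 : ℝ) ≤ R ^ 80 ∧ (rd e.2 e.1 : ℝ) ≤ R ^ 80)
  have s3 := ka_split μ μ E4 (fun e => ¬ Cop γ R (rd e.1 e.2) ∨ ¬ Cop γ R (rd e.2 e.1))
  rw [← hE1, ← hE2] at s1
  rw [← hE3, ← hE4] at s2
  rw [← hE5, ← hE6] at s3
  have m1 : ∀ e ∈ E1, e ∈ E ∧ R ^ ((1 : ℝ) / 16) ≤ (2 : ℝ) ^ (κ e.2 - κ e.1) := fun e he =>
    Finset.mem_filter.1 he
  have m2 : ∀ e ∈ E2, e ∈ E ∧ ¬ R ^ ((1 : ℝ) / 16) ≤ (2 : ℝ) ^ (κ e.2 - κ e.1) := fun e he =>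
    Finset.mem_filter.1 he
  have m3 : ∀ e ∈ E3, e ∈ E2 ∧ ((rd e.1 e.2 : ℝ) ≤ R ^ 80 ∧ (rd e.2 e.1 : ℝ) ≤ R ^ 80) :=
    fun e he => Finset.mem_filter.1 he
  have m4 : ∀ e ∈ E4, e ∈ E2 ∧ ¬ ((rd e.1 e.2 : ℝ) ≤ R ^ 80 ∧ (rd e.2 e.1 : ℝ) ≤ R ^ 80) :=
    fun e he => Finset.mem_filter.1 he
  have m5 : ∀ e ∈ E5, e ∈ E4 ∧ (¬ Cop γ R (rd e.1 e.2) ∨ ¬ Cop γ R (rd e.2 e.1)) :=
    fun e he => Finset.mem_filter.1 he
  have m6 : ∀ e ∈ E6, e ∈ E4 ∧ ¬ (¬ Cop γ R (rd e.1 e.2) ∨ ¬ Cop γ R (rd e.2 e.1)) :=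
    fun e he => Finset.mem_filter.1 he
  have b1 : IDS.em μ μ E1 ≤ Cu * X := by
    have := hu S κ μ R E1 hD.mu0 hS hR (fun e he => hE (m1 e he).1) (fun e he => by
      obtain ⟨c1, -, c3, -, -⟩ := hcond e (m1 e he).1
      exact ⟨c1, c3, (m1 e he).2⟩)
    refine this.trans ?_
    have h9 := ka_bd Cu W R (65 / 64) (-(1 + (1 : ℝ) / 128)) ξ (3 / 2) hCu hW hR (by norm_num)
      (by norm_num) (by linarith)
    rw [hX, ← mul_assoc]
    exact h9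
  have b3 : IDS.em μ μ E3 ≤ C₂ * X := by
    have := h₂ γ S κ μ hD.mu0 hS R hR E3 (fun e he => hE (m2 e (m3 e he).1).1) (fun e he => by
      obtain ⟨c1, c2, c3, c4, c5⟩ := hcond e (m2 e (m3 e he).1).1
      refine ⟨c1, c2, c3, c4, ?_, (m3 e he).2.1, (m3 e he).2.2⟩
      rcases c5 with c5 | c5
      · exact c5
      · exact absurd c5 (m2 e (m3 e he).1).2)
    refine this.trans ?_
    have h9 := ka_bd C₂ W R (1 + ξ₂) (-(1 + ξ₂)) ξ (3 / 2) hC₂ hW hR (by linarith)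
      (by linarith) (by linarith)
    rw [hX, ← mul_assoc]
    exact h9
  have b5 : IDS.em μ μ E5 ≤ Cn * X := by
    have := hn γ S κ μ R E5 hD.mu0 hS hR (fun e he => hE (m2 e (m4 e (m5 e he).1).1).1)
      (fun e he => by
        obtain ⟨c1, c2, c3, c4, c5⟩ := hcond e (m2 e (m4 e (m5 e he).1).1).1
        exact ⟨c1, c3, (m5 e he).2⟩)
    refine this.trans ?_
    have h9 := ka_bd Cn W R (33 / 32) (-(17 : ℝ) / 16) ξ (3 / 2) hCn hW hR (by norm_num)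
      (by norm_num) (by linarith)
    rw [hX, ← mul_assoc]
    exact h9
  have b6 : IDS.em μ μ E6 ≤ Ck * X := by
    have := hk γ S κ La μ hD.pos hD.mu0 hD.mu_le hL1 hSZ hmass R hR E6
      (fun e he => hE (m2 e (m4 e (m6 e he).1).1).1)
      (fun e he => by
        obtain ⟨c1, c2, c3, c4, c5⟩ := hcond e (m2 e (m4 e (m6 e he).1).1).1
        have hc := (m6 e he).2
        push Not at hc
        refine ⟨c1, c3, ⟨c4, ?_, ?_, hc.1, hc.2⟩, (m2 e (m4 e (m6 e he).1).1).2⟩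
        · have h7 := (m4 e (m6 e he).1).2
          by_contra hlt
          rw [not_le, max_lt_iff] at hlt
          exact h7 ⟨hlt.1.le, hlt.2.le⟩
        · rcases c5 with c5 | c5
          · exact c5
          · exact absurd c5 (m2 e (m4 e (m6 e he).1).1).2)
    refine this.trans ?_
    have h9 := ka_bd Ck W R 1 (-(1 + (1 : ℝ) / 10240)) ξ (3 / 2) hCk hW hR (by norm_num)
      (by norm_num) (by linarith)
    rw [Real.rpow_one] at h9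
    rw [hX, ← mul_assoc]
    exact h9
  have hfin : IDS.em μ μ E ≤ (Cu + C₂ + Cn + Ck) * X := by
    calc IDS.em μ μ E = IDS.em μ μ E1 + (IDS.em μ μ E3 + (IDS.em μ μ E5 + IDS.em μ μ E6)) := by
          rw [s3, s2, s1]
      _ ≤ Cu * X + (C₂ * X + (Cn * X + Ck * X)) :=
          add_le_add b1 (add_le_add b3 (add_le_add b5 b6))
      _ = _ := by ring
  rw [hX, ← mul_assoc] at hfin
  exact hfin

theorem isCls_light : IsCls ClL := fun _ _ _ _ _ h => h.2.1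

end Pool.Agent.IDF
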