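import Pool.Agent.IDF.Base

set_option autoImplicit false

namespace Pool.Agent.IDF

open Finset Pool.Agent.IDS Pool.Agent.IDE

theorem nd_rat (γ : ℝ) (s : ℕ) (hs : 1 ≤ s) (p : ℤ) (hγ : γ = p / s) (n : ℕ) :
    nd (n * γ) = 0 ∨ 1 / (s : ℝ) ≤ nd (n * γ) := by
  have hs0 : (0 : ℝ) < s := by exact_mod_cast hs
  have h1 : nd (n * γ) = |((n * p - s * round ((n : ℝ) * γ) : ℤ) : ℝ)| / s := by
    have h2 : ((n * p - s * round ((n : ℝ) * γ) : ℤ) : ℝ) =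
        s * ((n : ℝ) * γ - round ((n : ℝ) * γ)) := by
      have h3 : (s : ℝ) * γ = p := by rw [hγ]; field_simp
      push_cast
      rw [mul_sub, ← h3]
      ring
    rw [h2, abs_mul, Nat.abs_cast, mul_div_cancel_left₀ _ hs0.ne']
    rfl
  rw [h1]
  rcases eq_or_ne ((n : ℤ) * p - s * round ((n : ℝ) * γ)) 0 with h | h
  · left
    rw [h]
    simp
  · right
    have h2 : 1 ≤ |(n : ℤ) * p - s * round ((n : ℝ) * γ)| := Int.one_le_abs h
    have h3 : (1 : ℝ) ≤ |((n * p - s * round ((n : ℝ) * γ) : ℤ) : ℝ)| := by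
      rw [← Int.cast_abs]
      exact_mod_cast h2
    gcongr

theorem not_gf_rat (γ : ℝ) (s : ℕ) (hs : 1 ≤ s) (p : ℤ) (hγ : γ = p / s) (R : ℝ)
    (hR : 16 * (s : ℝ) ^ 3 ≤ R) (M : ℕ) : ¬ Gf γ R M := by
  have hs0 : (0 : ℝ) < s := by exact_mod_cast hs
  have hs1 : (1 : ℝ) ≤ s := by exact_mod_cast hs
  have hs3 : (s : ℝ) ≤ (s : ℝ) ^ 3 := by
    calc (s : ℝ) = (s : ℝ) ^ 1 := (pow_one _).symm
      _ ≤ (s : ℝ) ^ 3 := pow_le_pow_right₀ hs1 (by norm_num)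
  have hR0 : 0 < R := by linarith
  have hT : 0 < R / 8 := by linarith
  have hsT : (s : ℝ) < R / 8 := by linarith
  have hnd : nd (s * γ) = 0 := by
    have h1 : (s : ℝ) * γ = (p : ℝ) := by rw [hγ]; field_simp
    rw [h1]
    unfold nd
    simp
  have hden : den γ (R / 8) ≤ s := den_min γ _ s hs (by rw [hnd]; positivity)
  have heta : eta γ (R / 8) = 0 := by
    rcases nd_rat γ s hs p hγ (den γ (R / 8)) with h | h
    · exact h
    · exfalso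
      have h2 : nd (den γ (R / 8) * γ) ≤ 1 / (R / 8) := eta_le γ _ hT
      have h3 : 1 / (R / 8) < 1 / (s : ℝ) := one_div_lt_one_div_of_lt hs0 hsT
      linarith
  have hpow : (s : ℝ) ≤ R ^ ((3 : ℝ) / 8) := by
    have h1 : ((s : ℝ) ^ 3) ^ ((3 : ℝ) / 8) ≤ R ^ ((3 : ℝ) / 8) :=
      Real.rpow_le_rpow (by positivity) (by linarith [pow_pos hs0 3]) (by norm_num)
    have h2 : ((s : ℝ) ^ 3) ^ ((3 : ℝ) / 8) = (s : ℝ) ^ ((9 : ℝ) / 8) := by
      rw [← Real.rpow_natCast (s : ℝ) 3, ← Real.rpow_mul hs0.le]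
      norm_num
    have h3 : (s : ℝ) ^ (1 : ℝ) ≤ (s : ℝ) ^ ((9 : ℝ) / 8) :=
      Real.rpow_le_rpow_of_exponent_le hs1 (by norm_num)
    rw [Real.rpow_one] at h3
    rw [h2] at h1
    exact h3.trans h1
  rintro (h | h)
  · have h1 : ((den γ (R / 8) : ℕ) : ℝ) ≤ s := by exact_mod_cast hden
    linarith
  · rw [heta] at h
    linarith

/-- **Rational shifts**: all gainful aligned edges. -/
theorem kapP_rat (γ₀ : ℝ) (s : ℕ) (hs : 1 ≤ s) (p : ℤ) (hγ : γ₀ = p / s) :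
    KapP (fun γ S κ Ω μ => γ = γ₀ ∧ BD S κ Ω μ) := by
  classical
  obtain ⟨Cu, hCu, hu⟩ := ularge
  obtain ⟨Ck, hCk, hk⟩ := kappa (51 / 100) (by norm_num) (by norm_num)
  have hs1 : (1 : ℝ) ≤ s := by exact_mod_cast hs
  obtain ⟨R1, hR1⟩ : ∃ R1 : ℝ, R1 = 16 * (s : ℝ) ^ 3 := ⟨_, rfl⟩
  have hR11 : 1 ≤ R1 := by
    have := one_le_pow₀ (n := 3) hs1
    rw [hR1]; linarith
  refine ⟨3 / 2, 1 / 128, Cu + Ck * R1, by norm_num, by norm_num, by norm_num, by positivity, ?_⟩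
  rintro γ S κ Ω μ ⟨rfl, hD⟩ R hR E hE hcond
  have hR0 : 0 < R := by linarith
  have hS : ∀ v ∈ S, 0 < v ∧ μ v ≤ (Nat.totient v : ℝ) * (1 / 2 : ℝ) ^ κ v :=
    fun v hv => ⟨hD.pos v hv, hD.mu_le v hv⟩
  have hW : 0 ≤ ms μ S := ms_nonneg hD.mu0 S
  have hX0 : 0 ≤ (1 + ms μ S) ^ ((3 : ℝ) / 2) * R ^ (-(1 + (1 : ℝ) / 128)) :=
    mul_nonneg (Real.rpow_nonneg (by linarith) _) (Real.rpow_nonneg hR0.le _)
  rcases le_or_gt R1 R with hc | hc
  · have h1 := hu S κ μ R E hD.mu0 hS hR hE (fun e he => by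
      obtain ⟨c1, -, c3, -, c5⟩ := hcond e he
      refine ⟨c1, c3, ?_⟩
      rcases c5 with c5 | c5
      · exact absurd c5 (not_gf_rat γ s hs p hγ R (by rw [← hR1]; exact hc) _)
      · exact c5)
    have h2 := ka_bd Cu (ms μ S) R (65 / 64) (-(1 + (1 : ℝ) / 128)) (1 / 128) (3 / 2) hCu hW hR
      (by norm_num) (by norm_num) (le_refl _)
    refine (h1.trans h2).trans ?_
    rw [mul_assoc, mul_assoc]
    apply mul_le_mul_of_nonneg_right _ hX0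
    have : 0 ≤ Ck * R1 := by positivity
    linarith
  · have h1 : IDS.em μ μ E ≤ Ck * (ms μ S) ^ (2 * (51 / 100 : ℝ)) *
        (1 / R) ^ (2 * (1 - (51 / 100 : ℝ))) := by
      refine (em_mono hD.mu0 hD.mu0 ?_).trans (hk S κ μ (1 / R) hD.mu0 hS (by positivity))
      intro e he
      obtain ⟨c1, -, c3, -, -⟩ := hcond e he
      exact Finset.mem_filter.2 ⟨hE he, c1, c3⟩
    have e1 : (1 / R) ^ (2 * (1 - (51 / 100 : ℝ))) = R ^ (-((49 : ℝ) / 50)) := by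
      rw [one_div, Real.inv_rpow hR0.le, Real.rpow_neg hR0.le]
      norm_num
    have e2 : R ^ (-((49 : ℝ) / 50)) ≤ R1 * R ^ (-(1 + (1 : ℝ) / 128)) := by
      have e3 : R ^ (-((49 : ℝ) / 50)) =
          R ^ ((1 : ℝ) / 50 + 1 / 128) * R ^ (-(1 + (1 : ℝ) / 128)) := by
        rw [← Real.rpow_add hR0]
        norm_num
      rw [e3]
      apply mul_le_mul_of_nonneg_right _ (Real.rpow_nonneg hR0.le _)
      calc R ^ ((1 : ℝ) / 50 + 1 / 128) ≤ R ^ (1 : ℝ) :=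
            Real.rpow_le_rpow_of_exponent_le hR (by norm_num)
        _ = R := Real.rpow_one _
        _ ≤ R1 := hc.le
    have e4 : (ms μ S) ^ (2 * (51 / 100 : ℝ)) ≤ (1 + ms μ S) ^ ((3 : ℝ) / 2) :=
      (Real.rpow_le_rpow hW (by linarith) (by norm_num)).trans
        (Real.rpow_le_rpow_of_exponent_le (by linarith) (by norm_num))
    rw [e1] at h1
    refine h1.trans ?_
    calc Ck * (ms μ S) ^ (2 * (51 / 100 : ℝ)) * R ^ (-((49 : ℝ) / 50)) ≤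
          Ck * (1 + ms μ S) ^ ((3 : ℝ) / 2) * (R1 * R ^ (-(1 + (1 : ℝ) / 128))) := by
          have := Real.rpow_nonneg hR0.le (-((49 : ℝ) / 50))
          have := Real.rpow_nonneg (show 0 ≤ 1 + ms μ S by linarith) ((3 : ℝ) / 2)
          gcongr
      _ = (Ck * R1) * ((1 + ms μ S) ^ ((3 : ℝ) / 2) * R ^ (-(1 + (1 : ℝ) / 128))) := by ring
      _ ≤ (Cu + Ck * R1) * ((1 + ms μ S) ^ ((3 : ℝ) / 2) * R ^ (-(1 + (1 : ℝ) / 128))) := by
          apply mul_le_mul_of_nonneg_right _ hX0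
          linarith
      _ = _ := by ring

end Pool.Agent.IDF
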