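import Pool.Agent.IDF.FG
import Pool.Agent.IDF.KR
import Pool.Agent.IDF.K5b
import Pool.Agent.IDE.Z4

set_option autoImplicit false

namespace Pool.Agent.IDF

open Finset Pool.Agent.IDS Pool.Agent.IDE MeasureTheory Filter

/-- from almost all `x` to the measure of the limsup set -/
theorem limset_of_ae (γ : ℝ) (ψ : ℕ → ℝ) (kk : ℕ → ℕ)
    (hkk : ∀ q, 1 ≤ q → 0 < ψ q → ψ q < 1 / 2 →
      (1 / 2 : ℝ) ^ kk q ≤ ψ q / q ∧ ψ q / q < 2 * (1 / 2 : ℝ) ^ kk q)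
    (hfull : ∀ᵐ x ∂(volume.restrict (Set.Icc (0 : ℝ) 1)),
      ∃ᶠ q : ℕ in atTop, q ∈ {q : ℕ | 1 ≤ q ∧ 0 < ψ q ∧ ψ q < 1 / 2} ∧
        nd (q * x - γ) ≤ q * (1 / 2 : ℝ) ^ kk q) :
    volume (LimSet γ ψ) = 1 := by
  have hsub : LimSet γ ψ ⊆ Set.Icc (0 : ℝ) 1 := fun x hx => hx.1
  have hvol : volume (Set.Icc (0 : ℝ) 1) = 1 := by
    rw [Real.volume_Icc]
    norm_num
  have h1 : ∀ᵐ x ∂(volume.restrict (Set.Icc (0 : ℝ) 1)), x ∈ LimSet γ ψ := by
    have h2 : ∀ᵐ x ∂(volume.restrict (Set.Icc (0 : ℝ) 1)), x ∈ Set.Icc (0 : ℝ) 1 :=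
      ae_restrict_mem measurableSet_Icc
    filter_upwards [hfull, h2] with x hx hx2
    refine ⟨hx2, hx.mono ?_⟩
    rintro q ⟨⟨hq1, hq2, hq3⟩, hq4⟩
    refine ⟨hq1, ?_⟩
    rw [exists_residue_iff γ x (ψ q) q hq1]
    refine hq4.trans ?_
    have h3 := (hkk q hq1 hq2 hq3).1
    have hq0 : (0 : ℝ) < q := by exact_mod_cast hq1
    rw [le_div_iff₀ hq0] at h3
    linarith
  have h3 : volume ((LimSet γ ψ)ᶜ ∩ Set.Icc (0 : ℝ) 1) = 0 := by
    rw [ae_iff] at h1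
    rw [Measure.restrict_apply' measurableSet_Icc] at h1
    exact h1
  apply le_antisymm
  · calc volume (LimSet γ ψ) ≤ volume (Set.Icc (0 : ℝ) 1) := measure_mono hsub
      _ = 1 := hvol
  · calc (1 : ENNReal) = volume (Set.Icc (0 : ℝ) 1) := hvol.symm
      _ ≤ volume (LimSet γ ψ ∪ ((LimSet γ ψ)ᶜ ∩ Set.Icc (0 : ℝ) 1)) := by
        apply measure_mono
        intro x hx
        by_cases hxL : x ∈ LimSet γ ψ
        · exact Or.inl hxL
        · exact Or.inr ⟨hxL, hx⟩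
      _ ≤ volume (LimSet γ ψ) + volume ((LimSet γ ψ)ᶜ ∩ Set.Icc (0 : ℝ) 1) :=
        measure_union_le _ _
      _ = volume (LimSet γ ψ) := by rw [h3, add_zero]

theorem adm_of_level (ψ : ℕ → ℝ) (kk : ℕ → ℕ)
    (hkk : ∀ q, 1 ≤ q → 0 < ψ q → ψ q < 1 / 2 →
      (1 / 2 : ℝ) ^ kk q ≤ ψ q / q ∧ ψ q / q < 2 * (1 / 2 : ℝ) ^ kk q) :
    ∀ q ∈ {q : ℕ | 1 ≤ q ∧ 0 < ψ q ∧ ψ q < 1 / 2}, 1 ≤ q ∧
      (q : ℝ) * (1 / 2 : ℝ) ^ kk q < 1 / 2 := by
  rintro q ⟨hq1, hq2, hq3⟩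
  refine ⟨hq1, ?_⟩
  have h3 := (hkk q hq1 hq2 hq3).1
  have hq0 : (0 : ℝ) < q := by exact_mod_cast hq1
  rw [le_div_iff₀ hq0] at h3
  linarith

theorem limset_big (γ : ℝ) (ψ : ℕ → ℝ) (h : ∃ᶠ q : ℕ in atTop, 1 / 2 ≤ ψ q) :
    volume (LimSet γ ψ) = 1 := by
  have h1 : LimSet γ ψ = Set.Icc (0 : ℝ) 1 := by
    ext x
    constructor
    · exact fun hx => hx.1
    · intro hx
      refine ⟨hx, ?_⟩
      refine (h.and_eventually (eventually_ge_atTop 1)).mono ?_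
      rintro q ⟨h2, h3⟩
      exact ⟨h3, (exists_residue_iff γ x (ψ q) q h3).2 ((nd_le_half _).trans h2)⟩
  rw [h1, Real.volume_Icc]
  norm_num

/-- **Rational shifts, every `ψ`.** -/
theorem main_rat (s : ℕ) (hs : 1 ≤ s) (p : ℤ) (ψ : ℕ → ℝ) (hψ : ∀ q, 0 ≤ ψ q)
    (kk : ℕ → ℕ)
    (hkk : ∀ q, 1 ≤ q → 0 < ψ q → ψ q < 1 / 2 →
      (1 / 2 : ℝ) ^ kk q ≤ ψ q / q ∧ ψ q / q < 2 * (1 / 2 : ℝ) ^ kk q)
    (hdiv : ¬ Summable (fun q : ℕ => (Nat.totient q : ℝ) * ψ q / q)) :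
    volume (LimSet ((p : ℝ) / s) ψ) = 1 := by
  by_cases hbig : ∃ᶠ q : ℕ in atTop, 1 / 2 ≤ ψ q
  · exact limset_big _ ψ hbig
  have hsmall : ∀ᶠ q : ℕ in atTop, ψ q < 1 / 2 := by
    rw [Filter.not_frequently] at hbig
    exact hbig.mono fun q hq => not_le.1 hq
  apply limset_of_ae _ ψ kk hkk
  apply full_measure (fun γ S κ Ω μ => γ = (p : ℝ) / s ∧ BD S κ Ω μ)
    (fun _ _ _ _ _ h => h.2) (kapP_rat _ s hs p rfl) _ _ kk (fun _ => 1)
    (adm_of_level ψ kk hkk) (fun _ => zero_le_one)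
  · intro F hF
    have hnu : ∀ q, 0 ≤ nu kk q := fun q => by unfold nu; positivity
    refine ⟨rfl, fun v hv => (hF v hv).1, fun v => mul_nonneg zero_le_one (hnu v), fun v _ => ?_,
      fun _ => zero_le_one, fun _ => le_rfl⟩
    show 1 * nu kk v ≤ _
    rw [one_mul]
    exact le_of_eq rfl
  · intro hsum
    apply hdiv
    refine Summable.of_norm_bounded_eventually_nat (hsum.mul_left 2) ?_
    filter_upwards [hsmall] with q hq
    have hnn : 0 ≤ (Nat.totient q : ℝ) * ψ q / q := by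
      have := hψ q
      positivity
    rw [Real.norm_of_nonneg hnn]
    have hind : ∀ q : ℕ, 0 ≤ Set.indicator {q : ℕ | 1 ≤ q ∧ 0 < ψ q ∧ ψ q < 1 / 2}
        (fun q : ℕ => 1 * ((Nat.totient q : ℝ) * (1 / 2 : ℝ) ^ kk q)) q := by
      intro q
      apply Set.indicator_nonneg
      intro q _
      positivity
    rcases (hψ q).eq_or_lt with h0 | hpos
    · rw [← h0, mul_zero, zero_div]
      exact mul_nonneg (by norm_num) (hind q)
    rcases Nat.eq_zero_or_pos q with rfl | hq1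
    · rw [Nat.totient_zero, Nat.cast_zero, zero_mul, zero_div]
      exact mul_nonneg (by norm_num) (hind 0)
    · have hmem : q ∈ {q : ℕ | 1 ≤ q ∧ 0 < ψ q ∧ ψ q < 1 / 2} := ⟨hq1, hpos, hq⟩
      rw [Set.indicator_of_mem hmem]
      have h3 := (hkk q hq1 hpos hq).2
      calc (Nat.totient q : ℝ) * ψ q / q = (Nat.totient q : ℝ) * (ψ q / q) := by ring
        _ ≤ (Nat.totient q : ℝ) * (2 * (1 / 2 : ℝ) ^ kk q) :=
            mul_le_mul_of_nonneg_left h3.le (by positivity)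
        _ = _ := by ring

/-- **Every shift, no loss for light levels.** -/
theorem main_light (γ : ℝ) (ψ : ℕ → ℝ)
    (La : ℕ → ℝ) (hL1 : ∀ k, 1 ≤ La k)
    (kk : ℕ → ℕ)
    (hkk : ∀ q, 1 ≤ q → 0 < ψ q → ψ q < 1 / 2 →
      (1 / 2 : ℝ) ^ kk q ≤ ψ q / q ∧ ψ q / q < 2 * (1 / 2 : ℝ) ^ kk q)
    (hLS : ∀ (F : Finset ℕ) (k : ℕ), (∀ q ∈ F, 1 ≤ q ∧ 0 < ψ q ∧ ψ q < 1 / 2 ∧ kk q = k) →
      1 + Real.log ((F.image (Nat.log 2)).card : ℝ) ≤ La k ∨
        1 + Real.log (1 + Real.log ((k : ℝ) + 1)) ≤ La k)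
    (Lk : ℕ → Finset ℕ)
    (hLk : ∀ k q, q ∈ Lk k ↔ (1 ≤ q ∧ 0 < ψ q ∧ ψ q < 1 / 2) ∧ kk q = k)
    (hdiv : ¬ Summable (fun k : ℕ => min (∑ q ∈ Lk k, (Nat.totient q : ℝ) * ψ q / q)
      (((La k) ^ 5120) ^ 2)⁻¹)) :
    volume (LimSet γ ψ) = 1 := by
  classical
  have hnu : ∀ q, 0 ≤ nu kk q := fun q => by unfold nu; positivity
  obtain ⟨m, hm⟩ : ∃ m : ℕ → ℝ, ∀ k, m k = ∑ q ∈ Lk k, nu kk q := ⟨_, fun _ => rfl⟩
  obtain ⟨lam, hlam⟩ : ∃ lam : ℕ → ℝ, ∀ k, lam k = (((La k) ^ 5120) ^ 2)⁻¹ :=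
    ⟨_, fun _ => rfl⟩
  have hLa0 : ∀ k, 0 < ((La k) ^ 5120) ^ 2 := by
    intro k
    have h1 : 0 < La k := by linarith [hL1 k]
    have h2 : 0 < (La k) ^ 5120 := pow_pos h1 _
    exact pow_pos h2 2
  have hlam0 : ∀ k, 0 < lam k := fun k => by rw [hlam]; exact inv_pos.2 (hLa0 k)
  have hm0 : ∀ k, 0 ≤ m k := fun k => by
    rw [hm]
    exact Finset.sum_nonneg fun q _ => hnu q
  obtain ⟨Ω, hΩ⟩ : ∃ Ω : ℕ → ℝ, ∀ k, Ω k = min 1 (lam k / m k) := ⟨_, fun _ => rfl⟩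
  have hΩ0 : ∀ k, 0 ≤ Ω k := fun k => by
    rw [hΩ]
    exact le_min zero_le_one (div_nonneg (hlam0 k).le (hm0 k))
  have hΩ1 : ∀ k, Ω k ≤ 1 := fun k => by rw [hΩ]; exact min_le_left _ _
  have hΩm : ∀ k, Ω k * m k ≤ lam k := by
    intro k
    rcases (hm0 k).eq_or_lt with h0 | h0
    · rw [← h0, mul_zero]
      exact (hlam0 k).le
    · calc Ω k * m k ≤ (lam k / m k) * m k := by
            apply mul_le_mul_of_nonneg_right _ h0.le
            rw [hΩ]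
            exact min_le_right _ _
        _ = lam k := by field_simp
  have hΩm2 : ∀ k, min (2 * m k) (lam k) ≤ 2 * (Ω k * m k) := by
    intro k
    rcases (hm0 k).eq_or_lt with h0 | h0
    · rw [← h0, mul_zero, mul_zero, mul_zero]
      exact min_le_left _ _
    · rw [hΩ]
      rcases le_total 1 (lam k / m k) with h | h
      · rw [min_eq_left h, one_mul]
        exact min_le_left _ _
      · rw [min_eq_right h]
        have h1 : lam k / m k * m k = lam k := by field_simp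
        rw [h1]
        exact (min_le_right _ _).trans (by linarith [hlam0 k])
  apply limset_of_ae _ ψ kk hkk
  apply full_measure ClL isCls_light kapP_light γ _ kk Ω (adm_of_level ψ kk hkk) hΩ0
  · intro F hF
    refine ⟨rfl, ⟨fun v hv => (hF v hv).1, fun v => mul_nonneg (hΩ0 _) (hnu v), fun v _ => ?_,
      hΩ0, hΩ1⟩, La, hL1, ?_, ?_⟩
    · show Ω (kk v) * nu kk v ≤ _
      calc Ω (kk v) * nu kk v ≤ 1 * nu kk v := mul_le_mul_of_nonneg_right (hΩ1 _) (hnu v)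
        _ = _ := by rw [one_mul]; rfl
    · intro F' hF' k hk
      exact hLS F' k (fun q hq =>
        ⟨(hF q (hF' hq)).1, (hF q (hF' hq)).2.1, (hF q (hF' hq)).2.2, hk q hq⟩)
    · intro k
      have h1 : lm (fun q => Ω (kk q) * nu kk q) kk F k ≤ Ω k * m k := by
        unfold lm ms
        rw [hm, Finset.mul_sum]
        have h2 : ∑ v ∈ F.filter (fun v => kk v = k), Ω (kk v) * nu kk v =
            ∑ v ∈ F.filter (fun v => kk v = k), Ω k * nu kk v := by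
          refine Finset.sum_congr rfl fun v hv => ?_
          rw [(Finset.mem_filter.1 hv).2]
        rw [h2]
        apply Finset.sum_le_sum_of_subset_of_nonneg
        · intro v hv
          obtain ⟨a1, a2⟩ := Finset.mem_filter.1 hv
          exact (hLk k v).2 ⟨hF v a1, a2⟩
        · intro v _ _
          exact mul_nonneg (hΩ0 _) (hnu v)
      have h3 := h1.trans (hΩm k)
      rw [hlam] at h3
      calc lm (fun q => Ω (kk q) * nu kk q) kk F k * ((La k) ^ 5120) ^ 2 ≤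
            (((La k) ^ 5120) ^ 2)⁻¹ * ((La k) ^ 5120) ^ 2 :=
            mul_le_mul_of_nonneg_right h3 (hLa0 k).le
        _ = 1 := inv_mul_cancel₀ (hLa0 k).ne'
  · intro hsum
    apply hdiv
    set g : ℕ → ℝ := Set.indicator {q : ℕ | 1 ≤ q ∧ 0 < ψ q ∧ ψ q < 1 / 2}
        (fun q : ℕ => Ω (kk q) * ((Nat.totient q : ℝ) * (1 / 2 : ℝ) ^ kk q)) with hg
    have hg0 : ∀ q, 0 ≤ g q := by
      intro q
      apply Set.indicator_nonneg
      intro q _
      have := hΩ0 (kk q)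
      positivity
    have hgL : ∀ k, Ω k * m k = ∑ q ∈ Lk k, g q := by
      intro k
      rw [hm, Finset.mul_sum]
      refine Finset.sum_congr rfl fun q hq => ?_
      obtain ⟨a1, a2⟩ := (hLk k q).1 hq
      rw [hg, Set.indicator_of_mem (show q ∈ {q : ℕ | 1 ≤ q ∧ 0 < ψ q ∧ ψ q < 1 / 2} from a1), a2]
      unfold nu
      rw [a2]
    have hs1 : Summable (fun k => Ω k * m k) := by
      apply summable_of_sum_le (c := ∑' q, g q)
      · intro k
        exact mul_nonneg (hΩ0 k) (hm0 k)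
      · intro K
        have h1 : ∑ k ∈ K, Ω k * m k = ∑ q ∈ K.biUnion Lk, g q := by
          rw [Finset.sum_biUnion]
          · exact Finset.sum_congr rfl fun k _ => hgL k
          · intro k _ k' _ hkk'
            rw [Function.onFun, Finset.disjoint_left]
            intro q hq hq'
            exact hkk' (((hLk k q).1 hq).2.symm.trans ((hLk k' q).1 hq').2)
        rw [h1]
        exact hsum.sum_le_tsum _ (fun q _ => hg0 q)
    refine Summable.of_nonneg_of_le ?_ ?_ (hs1.mul_left 2)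
    · intro k
      apply le_min
      · apply Finset.sum_nonneg
        intro q hq
        have := ((hLk k q).1 hq).1.2.1.le
        positivity
      · rw [← hlam]
        exact (hlam0 k).le
    · intro k
      refine le_trans ?_ (hΩm2 k)
      rw [← hlam]
      apply min_le_min_right
      rw [hm, Finset.mul_sum]
      refine Finset.sum_le_sum fun q hq => ?_
      obtain ⟨⟨a1, a2, a3⟩, a4⟩ := (hLk k q).1 hq
      have h3 := (hkk q a1 a2 a3).2
      unfold nu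
      calc (Nat.totient q : ℝ) * ψ q / q = (Nat.totient q : ℝ) * (ψ q / q) := by ring
        _ ≤ (Nat.totient q : ℝ) * (2 * (1 / 2 : ℝ) ^ kk q) :=
            mul_le_mul_of_nonneg_left h3.le (by positivity)
        _ = _ := by ring

end Pool.Agent.IDF
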